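import Mathlib

/-! Definitions and statements (project LRC: long range covariances of the gaps of the zeta zeros). -/

open Filter Topology MeasureTheory

namespace Pool.Agent.H666.LRC

/-- cosine transform of a function on `[0, 1]` -/
noncomputable def ct (g : ℝ → ℝ) (x : ℝ) : ℝ :=
  2 * ∫ t in (0 : ℝ)..1, g t * Real.cos (2 * Real.pi * x * t)

/-- sine transform of a function on `[0, 1]` -/
noncomputable def st (g : ℝ → ℝ) (x : ℝ) : ℝ :=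
  2 * ∫ t in (0 : ℝ)..1, g t * Real.sin (2 * Real.pi * x * t)

/-- `g` is admissible: of class `C²` with `g 1 = 0` -/
def Adm (g : ℝ → ℝ) : Prop := ContDiff ℝ 2 g ∧ g 1 = 0

/-- `(2 π t)^j g(t)` -/
noncomputable def mu (j : ℕ) (g : ℝ → ℝ) (t : ℝ) : ℝ := (2 * Real.pi * t) ^ j * g t

/-- empirical covariance of a sequence at lag `k` -/
noncomputable def cv (a : ℕ → ℝ) (N k : ℕ) : ℝ :=
  (1 / N : ℝ) * ∑ n ∈ Finset.Icc 1 N, a n * a (n + k)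

/-- mean square of the sums of `k` consecutive terms -/
noncomputable def Vr (a : ℕ → ℝ) (N k : ℕ) : ℝ :=
  (1 / N : ℝ) * ∑ n ∈ Finset.Icc 1 N, (∑ i ∈ Finset.range k, a (n + i)) ^ 2

/-- the sum of `k` consecutive terms -/
noncomputable def Y (a : ℕ → ℝ) (k n : ℕ) : ℝ := ∑ i ∈ Finset.range k, a (n + i)

/-- the power spectrum of the first `N` terms of a sequence -/
noncomputable def PS (a : ℕ → ℝ) (N : ℕ) (θ : ℝ) : ℝ :=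
  (1 / N : ℝ) * ‖∑ n ∈ Finset.Icc 1 N, (a n : ℂ) * Complex.exp (2 * Real.pi * Complex.I * n * θ)‖ ^ 2

/-- the moment hypotheses on a sequence `a` (the centred gaps): the mean of `Y a k` tends to `0` and
the `p`-th absolute moments of `Y a k` are `O((log (k+1))^p)`, for each fixed `k`, as `N → ∞` -/
def Mom (a : ℕ → ℝ) : Prop :=
  (∀ k : ℕ, 1 ≤ k → ∀ ε : ℝ, 0 < ε → ∀ᶠ N : ℕ in atTop, |∑ n ∈ Finset.Icc 1 N, Y a k n| ≤ ε * N) ∧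
  (∀ p : ℕ, ∃ K : ℝ, 0 ≤ K ∧ ∀ k : ℕ, 1 ≤ k → ∀ᶠ N : ℕ in atTop,
    ∑ n ∈ Finset.Icc 1 N, |Y a k n| ^ p ≤ K * Real.log (k + 1) ^ p * N)

/-! ### Analysis -/

/-- T1: decay of the cosine transform. -/
def S_ctdecay : Prop := ∀ g : ℝ → ℝ, ContDiff ℝ 2 g → g 1 = 0 →
  ∃ C : ℝ, 0 ≤ C ∧ ∀ x : ℝ, |ct g x| ≤ C / (1 + x ^ 2)

/-- T2: decay of the sine transform. -/
def S_stdecay : Prop := ∀ g : ℝ → ℝ, ContDiff ℝ 2 g → g 0 = 0 → g 1 = 0 →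
  ∃ C : ℝ, 0 ≤ C ∧ ∀ x : ℝ, |st g x| ≤ C / (1 + x ^ 2)

/-- T3: derivatives of the transforms. -/
def S_deriv : Prop := ∀ g : ℝ → ℝ, Continuous g → ∀ x : ℝ,
  HasDerivAt (ct g) (-(st (mu 1 g) x)) x ∧ HasDerivAt (st g) (ct (mu 1 g) x) x

/-- T4: Taylor's formula with a third derivative of quadratic decay. -/
def S_taylor : Prop := ∀ f f1 f2 f3 : ℝ → ℝ, (∀ x, HasDerivAt f (f1 x) x) →
  (∀ x, HasDerivAt f1 (f2 x) x) → (∀ x, HasDerivAt f2 (f3 x) x) → ∀ C : ℝ, 0 ≤ C →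
  (∀ x, |f3 x| ≤ C / (1 + x ^ 2)) → ∀ x u : ℝ,
  |f (x + u) - f x - f1 x * u - f2 x * u ^ 2 / 2| ≤ 4 * C * (|u| ^ 3 + |u| ^ 5) / (1 + x ^ 2)

/-- T5: Poisson summation: `∑_{k ∈ ℤ} ct g (h k) = g 0 / h` for `0 < h ≤ 1`, truncated at `R`. -/
def S_poisson : Prop := ∀ g : ℝ → ℝ, ContDiff ℝ 2 g → g 1 = 0 →
  ∃ K : ℝ, 0 ≤ K ∧ ∀ h : ℝ, 0 < h → h ≤ 1 → ∀ R : ℕ, 1 ≤ R →
    |ct g 0 + 2 * ∑ k ∈ Finset.Icc 1 R, ct g (h * k) - g 0 / h| ≤ K / (h ^ 2 * R)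

/-- T6: a sum with logarithms. -/
def S_logsum : Prop := ∀ p : ℕ, ∃ K : ℝ, 0 ≤ K ∧ ∀ h : ℝ, 0 < h → h ≤ 1 / 2 → ∀ R : ℕ,
  ∑ k ∈ Finset.Icc 1 R, Real.log (k + 1) ^ p / (1 + (h * k) ^ 2) ≤ K * Real.log (1 / h) ^ p / h

/-- T7: the `p`-th moment from an exponential tail beyond `U`. -/
def S_layer : Prop := ∀ (p : ℕ) (c : ℝ), 0 < c → ∃ K : ℝ, 0 ≤ K ∧ ∀ (D : ℕ → ℝ) (U : ℝ) (n0 N : ℕ),
  0 ≤ U → (∀ n, 0 ≤ D n) →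
  (∀ lam : ℝ, U ≤ lam →
    (((Finset.Icc 1 N).filter (fun n : ℕ => n0 ≤ n ∧ lam ≤ D n)).card : ℝ) ≤
      N * Real.exp (-(c * lam))) →
  ∑ n ∈ (Finset.Icc 1 N).filter (fun n : ℕ => n0 ≤ n), D n ^ p ≤ (U ^ p + K) * N

/-- T8: two summations by parts. -/
def S_abel : Prop := ∀ (φ c W : ℕ → ℝ), W 0 = 0 → W 1 = c 0 →
  (∀ k : ℕ, 1 ≤ k → W (k + 1) - 2 * W k + W (k - 1) = 2 * c k) → ∀ R : ℕ,
  φ 0 * c 0 + 2 * ∑ k ∈ Finset.Icc 1 R, φ k * c k =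
    ∑ k ∈ Finset.Icc 1 R, W k * (φ (k + 1) - 2 * φ k + φ (k - 1)) +
      (φ R * W (R + 1) - φ (R + 1) * W R)

/-- T9: the near part of the pair sum, by Taylor's formula. -/
def S_near : Prop := S_ctdecay → S_stdecay → S_deriv → S_taylor → S_poisson → S_logsum →
  ∀ a : ℕ → ℝ, Mom a → ∀ g : ℝ → ℝ, Adm g → ∃ K : ℝ, 0 ≤ K ∧ ∀ h : ℝ, 0 < h → h ≤ 1 / 2 →
    ∃ R0 : ℕ, ∀ R : ℕ, R0 ≤ R → ∀ᶠ N : ℕ in atTop,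
    |∑ n ∈ Finset.Icc 1 N, (ct g 0 + 2 * ∑ k ∈ Finset.Icc 1 R, ct g (h * (k + Y a k n))) -
      (g 0 / h - h ^ 2 * ∑ k ∈ Finset.Icc 1 R, ct (mu 2 g) (h * k) * Vr a N k) * N| ≤
      K * (h ^ 2 * Real.log (1 / h) ^ 3) * N

/-- T10: a positive kernel. -/
noncomputable def gF (t : ℝ) : ℝ := (1 - t) * (1 + Real.cos (Real.pi * t))

def S_kernel : Prop := ∀ x : ℝ, 1 / (Real.pi ^ 2 * (1 + x ^ 2)) ≤ ct gF x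

/-- T11: a symmetric double sum near the diagonal. -/
def S_comb : Prop := ∀ (a b R : ℕ) (P : ℕ → ℕ → ℝ), (∀ n m, P n m = P m n) →
  ∑ n ∈ Finset.Icc a b, ∑ m ∈ (Finset.Icc a b).filter (fun m => n ≤ m + R ∧ m ≤ n + R), P n m =
    ∑ n ∈ Finset.Icc a b, P n n +
      2 * ∑ k ∈ Finset.Icc 1 R, ∑ n ∈ (Finset.Icc a b).filter (fun n => n + k ≤ b), P n (n + k)

/-- T12: the pointwise comparison. -/
def S_pt : Prop := ∀ (f : ℝ → ℝ) (C : ℝ), 0 ≤ C → (∀ x, |f x| ≤ C / (1 + x ^ 2)) →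
  (∀ x y, |f x - f y| ≤ C * |x - y|) → ∀ h : ℝ, 0 < h → ∀ ε : ℝ, 0 < ε →
  ∃ η L0 : ℝ, 0 < η ∧ 0 < L0 ∧ ∀ s S L : ℝ, 0 ≤ s → s ≤ S → S ≤ (1 + η) * s → L0 ≤ L →
    |f (h * S) - Real.exp (-(s / L) ^ 2 / 4) * f (h * s)| ≤ ε

/-- T13: from the double sum to the covariances. -/
def S_period : Prop := ∀ (a : ℕ → ℝ) (K0 : ℝ), 0 ≤ K0 →
  Tendsto (fun n : ℕ => a n ^ 2 / n) atTop (𝓝 0) →
  (∀ᶠ N : ℕ in atTop, ∑ n ∈ Finset.Icc 1 N, a n ^ 2 ≤ K0 * N) →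
  ∀ (f : ℝ → ℝ) (C : ℝ), 0 ≤ C → (∀ x, f (-x) = f x) → (∀ x, |f x| ≤ C / (1 + x ^ 2)) →
  ∀ h : ℝ, 0 < h → ∀ ε : ℝ, 0 < ε → ∃ R0 : ℕ, ∀ R : ℕ, R0 ≤ R → ∀ᶠ N : ℕ in atTop,
    |(1 / N : ℝ) * ∑ n ∈ Finset.Icc 1 N, ∑ m ∈ Finset.Icc 1 N, a n * a m * f (h * ((n : ℝ) - m)) -
      (f 0 * cv a N 0 + 2 * ∑ k ∈ Finset.Icc 1 R, f (h * k) * cv a N k)| ≤ ε

/-- T14: the integral of the power spectrum against `g`. -/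
def S_fubini : Prop := ∀ (a : ℕ → ℝ) (g : ℝ → ℝ), Continuous g → ∀ (h : ℝ) (N : ℕ), 1 ≤ N →
  ∫ t in (0 : ℝ)..1, g t * PS a N (h * t) =
    (1 / (2 * N) : ℝ) * ∑ n ∈ Finset.Icc 1 N, ∑ m ∈ Finset.Icc 1 N,
      a n * a m * ct g (h * ((n : ℝ) - m))

/-- T15: from the variances to the covariances. -/
def S_cov : Prop := S_ctdecay → S_stdecay → S_deriv → S_taylor → S_logsum → S_abel →
  ∀ a : ℕ → ℝ, Mom a →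
  (∀ m : ℕ, Tendsto (fun N : ℕ => Vr a N m -
      (m * cv a N 0 + 2 * ∑ k ∈ Finset.Ico 1 m, ((m : ℝ) - k) * cv a N k)) atTop (𝓝 0)) →
  ∀ g : ℝ → ℝ, Adm g → ∃ K : ℝ, 0 ≤ K ∧ ∀ h : ℝ, 0 < h → h ≤ 1 / 2 →
    ∃ R0 : ℕ, ∀ R : ℕ, R0 ≤ R → ∀ᶠ N : ℕ in atTop,
    |ct g 0 * cv a N 0 + 2 * ∑ k ∈ Finset.Icc 1 R, ct g (h * k) * cv a N k +
      h ^ 2 * ∑ k ∈ Finset.Icc 1 R, ct (mu 2 g) (h * k) * Vr a N k| ≤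
      K * (h ^ 2 * Real.log (1 / h) ^ 3)

end Pool.Agent.H666.LRC
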