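import Pool.Agent.H666.LRC.Defs

/-! Second round of statements: uniform version with a shift, and averages over short windows. -/

open Filter Topology MeasureTheory

namespace Pool.Agent.H666.LRC

/-- the function whose cosine transform is `ct G (x - ρ) + ct G (x + ρ)` -/
noncomputable def gr (G : ℝ → ℝ) (ρ t : ℝ) : ℝ := 2 * G t * Real.cos (2 * Real.pi * ρ * t)

/-- smooth, even, supported in `[-1, 1]` -/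
def Sm (G : ℝ → ℝ) : Prop :=
  ContDiff ℝ ((⊤ : ℕ∞) : WithTop ℕ∞) G ∧ (∀ t, G (-t) = G t) ∧ (∀ t, 1 ≤ |t| → G t = 0)

/-- U0: the transform of `gr G ρ`. -/
def S_shift : Prop := ∀ G : ℝ → ℝ, Continuous G → ∀ ρ x : ℝ,
  ct (gr G ρ) x = ct G (x - ρ) + ct G (x + ρ)

/-- U1: a sum with logarithms and a shift. -/
def S_logsum2 : Prop := ∀ p : ℕ, ∃ K : ℝ, 0 ≤ K ∧ ∀ h ρ : ℝ, 0 < h → h ≤ 1 / 2 → 0 ≤ ρ →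
  ρ ≤ 1 / h → ∀ R : ℕ,
  ∑ k ∈ Finset.Icc 1 R, Real.log (k + 1) ^ p / (1 + (h * k - ρ) ^ 2) ≤
    K * Real.log (1 / h) ^ p / h

/-- U2: the near part of the pair sum, by Taylor's formula, uniformly in the shift. -/
def S_near2 : Prop := S_ctdecay → S_stdecay → S_deriv → S_taylor → S_poisson → S_logsum2 → S_shift →
  ∀ a : ℕ → ℝ, Mom a → ∀ G : ℝ → ℝ, Adm G → ∃ K : ℝ, 0 ≤ K ∧ ∀ h ρ : ℝ, 0 < h → h ≤ 1 / 2 →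
    0 ≤ ρ → ρ ≤ 1 / h →
    ∃ R0 : ℕ, ∀ R : ℕ, R0 ≤ R → ∀ᶠ N : ℕ in atTop,
    |∑ n ∈ Finset.Icc 1 N, (ct (gr G ρ) 0 +
        2 * ∑ k ∈ Finset.Icc 1 R, ct (gr G ρ) (h * (k + Y a k n))) -
      (gr G ρ 0 / h - h ^ 2 * ∑ k ∈ Finset.Icc 1 R, ct (mu 2 (gr G ρ)) (h * k) * Vr a N k) * N| ≤
      K * (h ^ 2 * Real.log (1 / h) ^ 3) * N

/-- U3: from the variances to the covariances, uniformly in the shift. -/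
def S_cov2 : Prop := S_ctdecay → S_stdecay → S_deriv → S_taylor → S_logsum2 → S_shift → S_abel →
  ∀ a : ℕ → ℝ, Mom a →
  (∀ m : ℕ, Tendsto (fun N : ℕ => Vr a N m -
      (m * cv a N 0 + 2 * ∑ k ∈ Finset.Ico 1 m, ((m : ℝ) - k) * cv a N k)) atTop (𝓝 0)) →
  ∀ G : ℝ → ℝ, Adm G → ∃ K : ℝ, 0 ≤ K ∧ ∀ h ρ : ℝ, 0 < h → h ≤ 1 / 2 → 0 ≤ ρ → ρ ≤ 1 / h →
    ∃ R0 : ℕ, ∀ R : ℕ, R0 ≤ R → ∀ᶠ N : ℕ in atTop,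
    |ct (gr G ρ) 0 * cv a N 0 + 2 * ∑ k ∈ Finset.Icc 1 R, ct (gr G ρ) (h * k) * cv a N k +
      h ^ 2 * ∑ k ∈ Finset.Icc 1 R, ct (mu 2 (gr G ρ)) (h * k) * Vr a N k| ≤
      K * (h ^ 2 * Real.log (1 / h) ^ 3)

/-- D1: rapid decay of the transform. -/
def S_rapid : Prop := ∀ G : ℝ → ℝ, Sm G → ∀ A : ℕ, ∃ C : ℝ, 0 ≤ C ∧
  ∀ x : ℝ, |ct G x| ≤ C / (1 + |x|) ^ A

/-- D2: the main term. -/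
def S_mainterm : Prop := ∀ G : ℝ → ℝ, Sm G → ∃ C : ℝ, 0 ≤ C ∧ ∀ ρ : ℝ, 1 ≤ ρ →
  |(∫ t in (0 : ℝ)..1, t * (G t * Real.cos (2 * Real.pi * ρ * t))) + G 0 / (2 * Real.pi * ρ) ^ 2| ≤
    C / ρ ^ 4

/-- D3: the covariances averaged over windows of length `H`, `m ^ (2/3 + δ) ≤ H ≤ m ^ (1 - δ)`. -/
def S_dyson : Prop := S_rapid → S_mainterm → S_shift → ∀ G : ℝ → ℝ, Sm G → ∀ c : ℕ → ℕ → ℝ,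
  (∃ K0 : ℝ, 0 ≤ K0 ∧ ∀ᶠ N : ℕ in atTop, ∀ k : ℕ, k ≤ N → |c N k| ≤ K0) →
  (∃ K : ℝ, 0 ≤ K ∧ ∀ h ρ : ℝ, 0 < h → h ≤ 1 / 2 → 0 ≤ ρ → ρ ≤ 1 / h →
    ∃ R0 : ℕ, ∀ R : ℕ, R0 ≤ R → ∀ᶠ N : ℕ in atTop,
    |ct (gr G ρ) 0 * c N 0 + 2 * ∑ k ∈ Finset.Icc 1 R, ct (gr G ρ) (h * k) * c N k -
      2 * h * ∫ t in (0 : ℝ)..1, t * gr G ρ t| ≤ K * (h ^ 2 * Real.log (1 / h) ^ 3)) →
  ∀ δ : ℝ, 0 < δ → ∀ ε : ℝ, 0 < ε → ∃ m0 : ℕ, ∀ m : ℕ, m0 ≤ m → ∀ H : ℝ,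
    (m : ℝ) ^ (2 / 3 + δ) ≤ H → H ≤ (m : ℝ) ^ (1 - δ) → ∀ᶠ N : ℕ in atTop,
    |1 / H * (∑ k ∈ Finset.Icc 1 N, ct G ((k - m) / H) * c N k) +
      G 0 / (2 * Real.pi ^ 2 * m ^ 2)| ≤ ε / m ^ 2

end Pool.Agent.H666.LRC
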