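import Pool.Agent.H666.LRC.Main
import Pool.Agent.H666.LRC.P.T1
import Pool.Agent.H666.LRC.P.T3
import Pool.Agent.H666.LRC.P.T4
import Pool.Agent.H666.LRC.P.T5
import Pool.Agent.H666.LRC.P.T6
import Pool.Agent.H666.LRC.P.T7
import Pool.Agent.H666.LRC.P.T8
import Pool.Agent.H666.LRC.P.T9
import Pool.Agent.H666.LRC.P.T10
import Pool.Agent.H666.LRC.P.T11
import Pool.Agent.H666.LRC.P.T12
import Pool.Agent.H666.LRC.P.T13
import Pool.Agent.H666.LRC.P.T14
import Pool.Agent.H666.LRC.P.T15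

/-! The subtasks, collected (proved by helpers 539, 167, 571, 734, 162, 307, 115, 600, 233, 163, 231,
295 of the team). -/

namespace Pool.Agent.H666.LRC

theorem allT : AllT :=
  ⟨P539.T1, P539.T2, P167.T3, P571.T4, P734.T5 P539.T1, P162.T6, P307.T7, P115.T8, P600.T9,
    P162.T10, P233.T11, P163.T12, P163.T13, P231.T14, P295.T15⟩

end Pool.Agent.H666.LRC
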