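import Pool.Agent.H666.LRC.Defs2

/-! Third round of statements: change of the sequence; crude bound for the covariances. -/

open Filter Topology MeasureTheory

namespace Pool.Agent.H666.LRC

/-- U4: the covariances of two sequences which are close. -/
def S_transfer : Prop := ∀ (a b : ℕ → ℝ) (K0 : ℝ), 0 ≤ K0 →
  Tendsto (fun n : ℕ => a n ^ 2 / n) atTop (𝓝 0) →
  (∀ᶠ N : ℕ in atTop, ∑ n ∈ Finset.Icc 1 N, a n ^ 2 ≤ K0 * N) →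
  (∀ e : ℝ, 0 < e → ∃ n0 : ℕ, ∀ n : ℕ, n0 ≤ n → |a n - b n| ≤ e * (1 + |a n|)) →
  Tendsto (fun n : ℕ => b n ^ 2 / n) atTop (𝓝 0) ∧
  (∀ᶠ N : ℕ in atTop, ∑ n ∈ Finset.Icc 1 N, b n ^ 2 ≤ (8 * K0 + 8) * N) ∧
  ∀ k : ℕ, Tendsto (fun N : ℕ => cv a N k - cv b N k) atTop (𝓝 0)

/-- U5: a uniform bound for the covariances. -/
def S_cvbound : Prop := ∀ (a : ℕ → ℝ) (K0 : ℝ), 0 ≤ K0 →
  (∀ᶠ N : ℕ in atTop, ∑ n ∈ Finset.Icc 1 N, a n ^ 2 ≤ K0 * N) →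
  ∀ᶠ N : ℕ in atTop, ∀ k : ℕ, k ≤ N → |cv a N k| ≤ 2 * K0

end Pool.Agent.H666.LRC
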