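import Pool.Agent.H666.LRC.All
import Pool.Agent.H666.LRC.Main2
import Pool.Agent.H666.LRC.P.U0
import Pool.Agent.H666.LRC.P.U1
import Pool.Agent.H666.LRC.P.U2
import Pool.Agent.H666.LRC.P.U3
import Pool.Agent.H666.LRC.P.U4
import Pool.Agent.H666.LRC.P.U5
import Pool.Agent.H666.LRC.P.D1
import Pool.Agent.H666.LRC.P.D2
import Pool.Agent.H666.LRC.P.D3

/-! The subtasks of the second round, collected (proved by helpers 585, 977, 370, 122, 632, 706, 389,
791, 357 of the team). -/

namespace Pool.Agent.H666.LRC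

theorem allU : AllU :=
  ⟨P585.U0, P977.U1, P370.U2, P122.U3, P632.D1, P706.D2, P389.D3, P791.U4, P357.U5⟩

end Pool.Agent.H666.LRC
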