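import Pool.Agent.H666.LRC.Defs

/-! Fifth round of statements: the variance of the sums of `m` consecutive gaps from the power
spectrum, `V(m) = (1/π²) log m + O(log log m)`. -/

open Filter Topology MeasureTheory

namespace Pool.Agent.H666.LRC

/-- the Fejér kernel `|∑_{j<m} e(jθ)|²` -/
noncomputable def Fj (m : ℕ) (θ : ℝ) : ℝ :=
  Real.sin (Real.pi * m * θ) ^ 2 / Real.sin (Real.pi * θ) ^ 2

/-- smooth cutoff: `1` for `t ≤ 1/2`, `0` for `t ≥ 1` -/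
noncomputable def G0 (t : ℝ) : ℝ := Real.smoothTransition (2 - 2 * t)

/-- `(1 - cos (2π m θ)) / (2 π² θ²)` -/
noncomputable def ck (m θ : ℝ) : ℝ :=
  (1 - Real.cos (2 * Real.pi * m * θ)) / (2 * Real.pi ^ 2 * θ ^ 2)

/-- the properties of the power spectra `P N` which are used -/
def SpecHyp (P : ℕ → ℝ → ℝ) : Prop := (∀ N, Continuous (P N)) ∧ (∀ N θ, 0 ≤ P N θ) ∧
  (∀ G : ℝ → ℝ, ContDiff ℝ 2 G → G 1 = 0 → ∃ K : ℝ, 0 ≤ K ∧ ∀ h m : ℝ, 0 < h → h ≤ 1 / 2 → 0 ≤ m →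
    h * Real.log (m + 2 / h) ≤ 1 → ∀ᶠ N : ℕ in atTop,
    |∫ θ in (0 : ℝ)..h, G (θ / h) * Real.cos (2 * Real.pi * m * θ) * (P N θ - θ)| ≤
      K * (h ^ 3 * Real.log (m + 2 / h) ^ 3)) ∧
  (∃ K : ℝ, 0 ≤ K ∧ ∀ᶠ N : ℕ in atTop, ∫ θ in (0 : ℝ)..(1 / 2), P N θ ≤ K)

/-- V1: the mass of `[0, h]`.

Proof.  Let `G t = 2 - 2 t` (so `G ≥ 1` on `[0, 1/2]`, `G ≥ 0` on `[0, 1]`, `G 1 = 0`).  If
`h ≤ 1/4` apply the hypothesis with the scale `2 h` and `m = 0` (so `cos = 1`; the condition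
`2 h * log (0 + 2 / (2 h)) = 2 h log (1/h) ≤ 1` holds since `x log (1/x) ≤ 1/e`, or from
`log y ≤ y - 1` in the form `log (1/√h) ≤ 1/√h - 1`): `∫_0^h P ≤ ∫_0^{2h} G(θ/2h) P =
∫_0^{2h} G(θ/2h) θ + O(h³ log³(1/h)) ≤ 2 (2h)² + K 8 h³ log³(1/h)`, and `h log³(1/h)` is bounded
(`log³ y ≤ 48 √y ≤ 48 y` for `y ≥ 1`; see `logb` in Pool/Agent/H666/LRC/P/U6.lean on main).  If
`h > 1/4` use the last hypothesis: `∫_0^h P ≤ ∫_0^{1/2} P ≤ K ≤ 16 K h²`. -/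
def S_mass : Prop := ∀ P : ℕ → ℝ → ℝ, SpecHyp P →
  ∃ K : ℝ, 0 ≤ K ∧ ∀ h : ℝ, 0 < h → h ≤ 1 / 2 → ∀ᶠ N : ℕ in atTop,
    ∫ θ in (0 : ℝ)..h, P N θ ≤ K * h ^ 2

/-- V2: the high frequencies.

Proof.  Let `J` be the least natural number with `2 ^ J h ≥ 1/2` (e.g. `J = ⌈log (1/(2h)) / log 2⌉₊`;
`J ≤ 1 + log (1/h) / log 2`).  By induction on `j ≤ J`, with `c j = min (2 ^ j h) (1/2)`:
`∫_h^{c j} P/θ² ≤ 4 K j` for large `N`, as for `θ ∈ [c (j-1), c j]`, `1/θ² ≤ 1/c(j-1)²` and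
`∫_{c(j-1)}^{c j} P ≤ ∫_0^{c j} P ≤ K (c j)² ≤ 4 K c(j-1)²`.  So the integral is
`≤ 4 K J ≤ 4 K (1 + log (1/h) / log 2) ≤ K' log (1/h)`, as `log (1/h) ≥ log 4 ≥ 1`. -/
def S_high : Prop := ∀ P : ℕ → ℝ → ℝ, (∀ N, Continuous (P N)) → (∀ N θ, 0 ≤ P N θ) →
  (∃ K : ℝ, 0 ≤ K ∧ ∀ h : ℝ, 0 < h → h ≤ 1 / 2 → ∀ᶠ N : ℕ in atTop,
    ∫ θ in (0 : ℝ)..h, P N θ ≤ K * h ^ 2) →
  ∃ K : ℝ, 0 ≤ K ∧ ∀ h : ℝ, 0 < h → h ≤ 1 / 4 → ∀ᶠ N : ℕ in atTop,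
    ∫ θ in h..(1 / 2 : ℝ), P N θ / θ ^ 2 ≤ K * Real.log (1 / h)

/-- V3: the middle frequencies.

Proof.  Let `ψ t = G0 t - G0 (2 t)`: smooth, `0` for `t ≤ 1/4` and for `t ≥ 1`.  Then
`G t = ψ t / (2 π² t²)` is of class `C²` (it vanishes near `0`) with `G 1 = 0`.  Telescoping:
`G0 (θ/h) - G0 (2^J θ/h) = ∑_{j<J} ψ (2^j θ/h)`.  With `h_j = h / 2^j` the `j`-th integral is
`∫_0^{h_j} ψ(θ/h_j) ck m θ (P - θ) = h_j⁻² ∫_0^{h_j} G(θ/h_j) (1 - cos (2π m θ)) (P - θ)` (the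
integrand vanishes for `θ ≥ h_j`; at `θ = 0` both sides are `0`), and by the hypothesis for
`(h_j, 0)` and `(h_j, m)` it is at most `2 K h_j L³` in absolute value for large `N`, where
`L = log (m + 2 * 2^J / h)` (the conditions hold as `h_j log (m + 2/h_j) ≤ h L ≤ 1`; `m + 2/h_j ≥ 1`
and `0 + 2/h_j ≥ 1`).  Sum over `j`: `∑ h_j ≤ 2 h`. -/
def S_middle : Prop := ∀ P : ℕ → ℝ → ℝ, SpecHyp P →
  ∃ K : ℝ, 0 ≤ K ∧ ∀ (m h : ℝ) (J : ℕ), 1 ≤ m → 0 < h → h ≤ 1 / 2 →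
    h * Real.log (m + 2 * 2 ^ J / h) ≤ 1 → ∀ᶠ N : ℕ in atTop,
    |∫ θ in (0 : ℝ)..h, (G0 (θ / h) - G0 (2 ^ J * θ / h)) * ck m θ * (P N θ - θ)| ≤
      K * (h * Real.log (m + 2 * 2 ^ J / h) ^ 3)

/-- V4: the main term.

Proof.  Let `D θ = G0 (θ/h) - G0 (2^J θ/h)`, `h' = h/2^J`, so `1/m ≤ h' ≤ 2/m`; `0 ≤ D ≤ 1`,
`D = 0` for `θ ≤ h'/2` and for `θ ≥ h`, `D = 1` for `h' ≤ θ ≤ h/2`.  The integral is
`(1/π²) ∫_{h'/2}^h D θ (1 - cos (2π m θ)) / θ dθ`.  First part: `∫ D/θ` is between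
`∫_{h'}^{h/2} 1/θ = log (h/(2h'))` and `∫_{h'/2}^h 1/θ = log (2h/h')` (if `J = 0` then `D = 0`; the
bounds hold too), so it is `J log 2 + O(log 2)`, and `log (m h) = J log 2 + log (m h')`,
`0 ≤ log (m h') ≤ log 2`.  Second part: `∫_{h'/2}^h (D/θ) cos (2π m θ)` is
`-(1/(2π m)) ∫ (D/θ)' sin (2π m θ)` (integration by parts, `D` vanishes at both ends), and
`∫ |(D/θ)'| ≤ ∫ |D'|/θ + ∫_{h'/2}^∞ 1/θ² ≤ C/h' ≤ C m` (`D'` is bounded by `C/h'` on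
`[h'/2, h']` and by `C/h` on `[h/2, h]` and is zero elsewhere, `C` a bound for `|G0'|`).
Simpler for the second part, without derivatives of `D`: `G0` is antitone, so by the second mean
value theorem, or: split `D/θ = G0(θ/h)/θ - G0(θ/h')/θ` on `[h'/2, h]`, both antitone in `θ`. -/
def S_mainlog : Prop := ∃ K : ℝ, 0 ≤ K ∧ ∀ (m h : ℝ) (J : ℕ), 1 ≤ m → 0 < h → h ≤ 1 / 2 →
  1 ≤ m * h / 2 ^ J → m * h / 2 ^ J ≤ 2 →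
  |2 * (∫ θ in (0 : ℝ)..h, (G0 (θ / h) - G0 (2 ^ J * θ / h)) * ck m θ * θ) -
    1 / Real.pi ^ 2 * Real.log (m * h)| ≤ K

/-- V5: bounds for the Fejér kernel.

Proof.  `|sin (m x)| ≤ m |sin x|` by induction; `sin (π θ) ≥ 2 θ` on `[0, 1/2]`;
`Fj m θ - ck m θ = (1 - cos (2π m θ))/2 * (1/sin² x - 1/x²)`, `x = π θ ∈ (0, π/2]`, and
`0 ≤ 1/sin² x - 1/x² ≤ 1`: the second is `sin x ≥ x/√(1+x²) = sin (arctan x)`, which follows from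
`arctan x ≤ x ≤ π/2`. -/
def S_kern : Prop := ∀ (m : ℕ) (θ : ℝ), 0 < θ → θ ≤ 1 / 2 →
  0 ≤ Fj m θ ∧ Fj m θ ≤ (m : ℝ) ^ 2 ∧ Fj m θ ≤ 1 / (4 * θ ^ 2) ∧ |Fj m θ - ck m θ| ≤ 1

/-- V6: assembly.

Proof.  Let `K1, K2, K3, K4` be the constants of V1-V4 and `KB` that of the last part of `SpecHyp`.
Let `m₁` be such that `log (3m)³ ≤ m` for `m ≥ m₁`.  For `16 ≤ m < m₁` use
`0 ≤ 2 ∫ Fj m P ≤ 2 m₁² KB`, `0 ≤ log m ≤ log m₁` and `log (log m) ≥ 1`.  For `m ≥ m₁` let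
`L = log (3m) > 1`, `h = L⁻³ (≤ 1/50)`, and `J` with `2^J ≤ m h < 2^(J+1)`; `h' = h/2^J`,
`1/m ≤ h' ≤ 2/m`, `m + 2 * 2^J/h ≤ 3 m`, so the conditions of V3 and V4 hold.  Write on `(0, 1/2]`
`Fj P = (1 - G0 (θ/h)) Fj P + G0 (θ/h') Fj P + D (Fj - ck) P + D ck (P - θ) + D ck θ`,
`D = G0 (θ/h) - G0 (θ/h')` (`= 0` for `θ ≥ h`, `0 ≤ D ≤ 1`).  Twice the integrals are, for large
`N`: `≤ 2 ∫_{h/2}^{1/2} P/(4θ²) ≤ K2 log (2/h)`; `≤ 2 m² ∫_0^{h'} P ≤ 2 m² K1 h'² ≤ 8 K1`;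
`≤ 2 KB`; `≤ 2 K3 h log(3m)³ = 2 K3`; `(1/π²) log (m h) + O(K4)`; and
`log (m h) = log m - 3 log L`, `log (2/h) = log 2 + 3 log L`, `log L ≤ log 2 + log (log m) ≤
2 log (log m)`. -/
def S_varlog : Prop := S_mass → S_high → S_middle → S_mainlog → S_kern →
  ∀ P : ℕ → ℝ → ℝ, SpecHyp P → ∃ K : ℝ, 0 ≤ K ∧ ∀ m : ℕ, 16 ≤ m → ∀ᶠ N : ℕ in atTop,
    |2 * (∫ θ in (0 : ℝ)..(1 / 2), Fj m θ * P N θ) - 1 / Real.pi ^ 2 * Real.log m| ≤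
      K * Real.log (Real.log m)

/-- V7: the mean square of the sums of `m` consecutive terms and the power spectrum.

Proof.  `PS b N θ = (1/N) ∑_{n,n' ≤ N} b n b n' cos (2π (n - n') θ)` and, for `sin (π θ) ≠ 0`,
`Fj m θ = ∑_{|k|<m} (m - |k|) cos (2π k θ)`.  So `2 ∫_0^{1/2} Fj m θ PS b N θ dθ` is
`(1/N) ∑_{n,n' ≤ N} (m - |n - n'|)₊ b n b n' = (m/N) ∑ b n² + 2 ∑_{1≤k<m} (m - k) (1/N)
∑_{n ≤ N - k} b n b (n+k)`.  This differs from `m cv b N 0 + 2 ∑_{1≤k<m} (m-k) cv b N k` by the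
terms with `N - k < n ≤ N`, at most `k` of them for each `k < m`, and `|b n b (n+k)| ≤ (b n² +
b (n+k)²)/2 = o(N)`.  Then the last hypothesis.  (Useful: S_fubini, S_period in
Pool/Agent/H666/LRC/Defs.lean, proved in P/T13.lean, P/T14.lean on main.) -/
def S_fejer : Prop := ∀ (b : ℕ → ℝ) (K0 : ℝ), 0 ≤ K0 →
  Tendsto (fun n : ℕ => b n ^ 2 / n) atTop (𝓝 0) →
  (∀ᶠ N : ℕ in atTop, ∑ n ∈ Finset.Icc 1 N, b n ^ 2 ≤ K0 * N) →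
  (∀ m : ℕ, Tendsto (fun N : ℕ => Vr b N m -
      (m * cv b N 0 + 2 * ∑ k ∈ Finset.Ico 1 m, ((m : ℝ) - k) * cv b N k)) atTop (𝓝 0)) →
  ∀ m : ℕ, 1 ≤ m → Tendsto (fun N : ℕ => Vr b N m -
    2 * ∫ θ in (0 : ℝ)..(1 / 2), Fj m θ * PS b N θ) atTop (𝓝 0)

/-- V8: the total mass.

Proof.  `PS b N (-θ) = PS b N θ`, `PS b N (θ + 1) = PS b N θ`, Parseval:
`2 ∫_0^{1/2} PS b N θ dθ = ∫_0^1 PS b N θ dθ = (1/N) ∑_{n ≤ N} b n²`.  (Or from the double sum: `PS b N θ =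
(1/N) ∑_{n,n'} b n b n' cos (2π (n - n') θ)` and `∫_0^{1/2} cos (2π k θ) dθ = 0` for integers `k ≠ 0`.) -/
def S_total : Prop := ∀ (b : ℕ → ℝ) (N : ℕ), 1 ≤ N →
  ∫ θ in (0 : ℝ)..(1 / 2), PS b N θ = (1 / (2 * N) : ℝ) * ∑ n ∈ Finset.Icc 1 N, b n ^ 2

end Pool.Agent.H666.LRC
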