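import Pool.Agent.H666.LRC.Main5
import Pool.Agent.H666.LRC.P.V1
import Pool.Agent.H666.LRC.P.V2
import Pool.Agent.H666.LRC.P.V3
import Pool.Agent.H666.LRC.P.V4
import Pool.Agent.H666.LRC.P.V5
import Pool.Agent.H666.LRC.P.V6
import Pool.Agent.H666.LRC.P.V7
import Pool.Agent.H666.LRC.P.V8

/-! The subtasks V1-V8, collected (proved by helpers 686, 864, 437, 297, 933, 268, 581, 56 of the
team), and the final theorems. -/

open Filter Topology Set MeasureTheory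

namespace Pool.Agent.H666.LRC

/-- **the power spectrum near frequency zero, any scale and any shift** -/
theorem spectrum_final (hRH : RiemannHypothesis) {G : ℝ → ℝ} (hG : Adm G) {b : ℕ → ℝ}
    (hb : Close b) :
    ∃ K : ℝ, 0 ≤ K ∧ ∀ h m : ℝ, 0 < h → h ≤ 1 / 2 → 0 ≤ m → ∀ᶠ N : ℕ in atTop,
      |∫ θ in (0 : ℝ)..h, G (θ / h) * Real.cos (2 * Real.pi * m * θ) * (PS b N θ - θ)| ≤
        K * (h ^ 3 * Real.log (m + 2 / h) ^ 3) :=
  spectrum6 PV56.V8 hRH hG hb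

/-- **the variance of the sums of `m` gaps** -/
theorem var_final (hRH : RiemannHypothesis) {b : ℕ → ℝ} (hb : Close b) :
    ∃ K : ℝ, ∀ m : ℕ, 16 ≤ m → ∀ᶠ N : ℕ in atTop,
      |Vr b N m - 1 / Real.pi ^ 2 * Real.log m| ≤ K * Real.log (Real.log m) :=
  var_loglog PV686.V1 PV864.V2 PV437.V3 PV297.V4 PV933.V5 PV268.V6 PV581.V7 PV56.V8 hRH hb

end Pool.Agent.H666.LRC
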