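import Pool.Agent.H666.LRC.Defs5

/-! Seventh round of statements: the sharp cutoff with an error term, by a cosine series of a
trapezoid. -/

open Filter Topology MeasureTheory

namespace Pool.Agent.H666.LRC

/-- trapezoid: `1` for `x ≤ a`, `0` for `x ≥ b`, linear in between -/
noncomputable def tz (a b x : ℝ) : ℝ := 1 / 2 + (|x - b| - |x - a|) / (2 * (b - a))

/-- the coefficients of its cosine series on `[0, 1/2]` -/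
noncomputable def tc (a b : ℝ) (n : ℕ) : ℝ :=
  (Real.cos (2 * Real.pi * n * a) - Real.cos (2 * Real.pi * n * b)) / (Real.pi ^ 2 * n ^ 2 * (b - a))

/-- W1: the cosine series of the trapezoid.

Proof.  Mathlib: `hasSum_one_div_nat_pow_mul_cos` with `k = 1`: for `y ∈ [0, 1]`,
`∑_{n≥1} cos (2π n y) / n² = π² (y² - y + 1/6)` (the term `n = 0` of the Mathlib sum is `1/0 = 0`), so
`β(y) := ∑ cos (2π n y)/n² = π² (y² - |y| + 1/6)` for `|y| ≤ 1`, as both sides are even.  For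
`x, a, b ∈ [0, 1/2]`: `β(x-a) + β(x+a) - β(x-b) - β(x+b) = π² (2 (a² - b²) + (b - a) + |x-b| - |x-a|)`
and `β(x-a) + β(x+a) = ∑ 2 cos (2π n a) cos (2π n x) / n²`.  Divide by `2 π² (b - a)`:
`∑_{n≥1} tc a b n * cos (2π n x) = tz a b x - (a + b)`.  The tail over `n > J` is at most
`∑_{n>J} 2/(π² n² (b-a)) ≤ 2/(π² (b-a) J) ≤ 1/((b-a) J)`. -/
def S_tz : Prop := ∀ a b x : ℝ, 0 ≤ a → a < b → b ≤ 1 / 2 → 0 ≤ x → x ≤ 1 / 2 → ∀ J : ℕ, 1 ≤ J →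
  |tz a b x - (a + b + ∑ n ∈ Finset.Icc 1 J, tc a b n * Real.cos (2 * Real.pi * n * x))| ≤
    1 / ((b - a) * J)

/-- W2: the sum of the absolute values of the coefficients.

Proof.  `|tc a b n| ≤ min (2/(π n)) (2/(π² n² (b-a)))` (`|cos u - cos v| ≤ |u - v|` and `≤ 2`).  With
`M = ⌈1/(b-a)⌉₊`: `∑_{n ≤ M} 2/(π n) ≤ (2/π)(1 + log M)` (harmonic sum), `M ≤ 2/(b-a)`, and
`∑_{n > M} 2/(π² n² (b-a)) ≤ 2/(π² M (b-a)) ≤ 1`.  So `C = 4` works: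
`≤ 1 + 1 + log 2 + log (1/(b-a)) ≤ 4 (1 + log (1/(b-a)))`, as `log (1/(b-a)) ≥ log 2 > 0`. -/
def S_tcsum : Prop := ∀ a b : ℝ, 0 ≤ a → a < b → b ≤ 1 / 2 → ∀ J : ℕ,
  ∑ n ∈ Finset.Icc 1 J, |tc a b n| ≤ 4 * (1 + Real.log (1 / (b - a)))

/-- W3: one trapezoid.

Proof.  Let `P` satisfy the hypotheses, `K` the constant of the third for `G = G0` (`G0` is smooth:
`Real.smoothTransition.contDiff`; `G0 1 = 0`), `KB` that of the fourth, `0 < h ≤ 1/4`,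
`a < b ≤ 1/2`, `b - a = h/4`, and `x = θ/(4h) ∈ [0, 1/2]` for `θ ∈ [0, 2h]`.  Let `J = ⌈h⁻⁴⌉₊`.  By
S_tz, `G0 (θ/(2h)) * tz a b (θ/(4h)) = G0 (θ/(2h)) * (a + b + ∑_{n≤J} tc a b n cos (2π (n/(4h)) θ)) + r`
with `|r| ≤ 1/((h/4) J) ≤ 4 h³`.  Integrate against `P - θ` over `[0, 2h]`: the remainder is
at most `4 h³ (KB + 1)`; the terms: for `n = 0` (factor `a + b ≤ 1`) and `1 ≤ n ≤ J` the third
hypothesis with the scale `2h ≤ 1/2` and `m = n/(4h)` gives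
`K (2h)³ log (n/(4h) + 1/h)³ ≤ 8 K h³ (6 log (1/h))³`, since `n/(4h) + 1/h ≤ (J/4 + 1)/h ≤ h⁻⁶` for
`h ≤ 1/4`; and `∑ |tc| ≤ 4 (1 + log (4/h)) ≤ 12 log (1/h)` (`log 4 ≤ log (1/h)`, `1 ≤ log 4`).  All
together `≤ C h³ log (1/h)⁴` with `C` depending on `K, KB` only. -/
def S_trap : Prop := S_tz → S_tcsum → ∀ P : ℕ → ℝ → ℝ, (∀ N, Continuous (P N)) →
  (∀ N θ, 0 ≤ P N θ) →
  (∃ K : ℝ, 0 ≤ K ∧ ∀ h m : ℝ, 0 < h → h ≤ 1 / 2 → 0 ≤ m → ∀ᶠ N : ℕ in atTop,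
    |∫ θ in (0 : ℝ)..h, G0 (θ / h) * Real.cos (2 * Real.pi * m * θ) * (P N θ - θ)| ≤
      K * (h ^ 3 * Real.log (m + 2 / h) ^ 3)) →
  (∃ K : ℝ, 0 ≤ K ∧ ∀ᶠ N : ℕ in atTop, ∫ θ in (0 : ℝ)..(1 / 2), P N θ ≤ K) →
  ∃ K : ℝ, 0 ≤ K ∧ ∀ h a b : ℝ, 0 < h → h ≤ 1 / 4 → 0 ≤ a → b ≤ 1 / 2 → b - a = h / 4 →
    ∀ᶠ N : ℕ in atTop,
    |∫ θ in (0 : ℝ)..(2 * h), G0 (θ / (2 * h)) * tz a b (θ / (4 * h)) * (P N θ - θ)| ≤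
      K * (h ^ 3 * Real.log (1 / h) ^ 4)

/-- W4: the sharp cutoff.

Proof.  If `1/4 < h ≤ 1/2`: `0 ≤ ∫_0^h P ≤ ∫_0^{1/2} P ≤ KB` and `h³ log (1/h)⁴ ≥ (1/4)³ (log 2)⁴ > 0`.
If `h ≤ 1/4`: for `a = 1/4`, `b = 1/4 + h/4 (≤ 1/2)` the function `G0 (θ/(2h)) tz a b (θ/(4h))` is `1`
for `0 ≤ θ ≤ h` (`G0 t = 1` for `t ≤ 1/2`), between `0` and `1` everywhere and `0` for
`θ ≥ h (1+h)`, so
`∫_0^h P ≤ ∫_0^{2h} (..) P ≤ ∫_0^{h(1+h)} θ dθ + K h³ log (1/h)⁴ = h² (1+h)²/2 + ...`.  For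
`a = 1/4 - h/4`, `b = 1/4` it is `1` for `θ ≤ h (1-h)`, between `0` and `1`, and `0` for `θ ≥ h`, so
`∫_0^h P ≥ ∫_0^{2h} (..) P ≥ ∫_0^{h(1-h)} θ dθ - K h³ log (1/h)⁴`.  And `h³ ≤ h³ log (1/h)⁴` for
`h ≤ 1/4` (`log 4 ≥ 1`). -/
def S_sharp4 : Prop := ∀ P : ℕ → ℝ → ℝ, (∀ N, Continuous (P N)) → (∀ N θ, 0 ≤ P N θ) →
  (∃ K : ℝ, 0 ≤ K ∧ ∀ h a b : ℝ, 0 < h → h ≤ 1 / 4 → 0 ≤ a → b ≤ 1 / 2 → b - a = h / 4 →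
    ∀ᶠ N : ℕ in atTop,
    |∫ θ in (0 : ℝ)..(2 * h), G0 (θ / (2 * h)) * tz a b (θ / (4 * h)) * (P N θ - θ)| ≤
      K * (h ^ 3 * Real.log (1 / h) ^ 4)) →
  (∃ K : ℝ, 0 ≤ K ∧ ∀ᶠ N : ℕ in atTop, ∫ θ in (0 : ℝ)..(1 / 2), P N θ ≤ K) →
  ∃ K : ℝ, 0 ≤ K ∧ ∀ h : ℝ, 0 < h → h ≤ 1 / 2 → ∀ᶠ N : ℕ in atTop,
    |(∫ θ in (0 : ℝ)..h, P N θ) - h ^ 2 / 2| ≤ K * (h ^ 3 * Real.log (1 / h) ^ 4)

end Pool.Agent.H666.LRC
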