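import Pool.Agent.H666.LRC.Dys
import Pool.Agent.H666.LRC.P.W1
import Pool.Agent.H666.LRC.P.W2
import Pool.Agent.H666.LRC.P.W3
import Pool.Agent.H666.LRC.P.W4

/-! The subtasks W1-W4, collected (proved by helpers 782, 348, 339, 356 of the team), and the sharp
cutoff with an error term. -/

open Filter Topology Set MeasureTheory

namespace Pool.Agent.H666.LRC

/-- **the spectral distribution near frequency zero** -/
theorem sharp_final (hRH : RiemannHypothesis) {b : ℕ → ℝ} (hb : Close b) :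
    ∃ K : ℝ, 0 ≤ K ∧ ∀ h : ℝ, 0 < h → h ≤ 1 / 2 → ∀ᶠ N : ℕ in atTop,
      |(∫ θ in (0 : ℝ)..h, PS b N θ) - h ^ 2 / 2| ≤ K * (h ^ 3 * Real.log (1 / h) ^ 4) := by
  have hm := mass_bdd PV56.V8 hRH hb
  have hG : Adm G0 := ⟨PV437.G0_contDiff, by unfold G0; simp⟩
  exact PW356.W4 (PS b) (PS_cont b) (PS_nonneg b)
    (PW339.W3 PW782.W1 PW348.W2 (PS b) (PS_cont b) (PS_nonneg b) (spectrum_final hRH hG hb) hm) hm

end Pool.Agent.H666.LRC
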