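import Pool.Agent.H666.LRC.Defs5

/-! Eighth round of statements: the variance averaged over short windows of `m`, with error `O(1)`. -/

open Filter Topology MeasureTheory

namespace Pool.Agent.H666.LRC

/-- X1: the high frequencies, with the constant.

Proof.  Let `ψ t = G0 t - G0 (2 t)` (`0` for `t ≤ 1/4` and for `t ≥ 1`), `G t = ψ t / (2 π² t²)`:
class `C²`, `G 1 = 0` (these are `psi`, `GG`, `GG_contDiff`, `GG_high`, `tele` in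
Pool/Agent/H666/LRC/P/V3.lean, in the archive; copy what you need).  With `h_j = 2^(-j)/2`,
`G0 (2θ) - G0 (2^(J+1) θ) = ∑_{j<J} ψ (θ/h_j)` and
`∫_0^{1/2} ψ(θ/h_j) (P - θ)/(2π²θ²) = h_j⁻² ∫_0^{h_j} G(θ/h_j) (P - θ)` is at most
`K h_j log (2/h_j)³` in absolute value for large `N` (third hypothesis of `SpecHyp` with `m = 0`; its
condition `h log (0 + 2/h) ≤ 1` holds for `0 < h ≤ 1/2`: `log (2/h) ≤ 2 log 2 + (1/(2h) - 1)`, i.e.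
`log y ≤ log 4 + y/4 - 1 ≤ y/2` for `y = 2/h ≥ 4`, as `log 4 ≤ 1.39 ≤ 1 + y/4`).  The sum
`∑_j 2^(-j) (log 4 + j log 2)³` is bounded independently of `J`.  Main term:
`2 ∫_0^{1/2} (G0 (2θ) - G0 (2^(J+1) θ))/(2π² θ) dθ = (1/π²) J log 2`: each
`∫_0^{h_j} ψ(θ/h_j)/θ dθ = ∫_{1/4}^1 ψ(t)/t dt` is independent of `j`, equal to
`∫_{1/4}^1 G0(t)/t dt - ∫_{1/2}^1 G0(s)/s ds ... = log 2` (substitute `s = 2t` in the second part: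
`∫_{1/4}^{1} G0(2t)/t dt = ∫_{1/2}^{2} G0(s)/s ds = ∫_{1/2}^1 G0(s)/s ds`, so the difference is
`∫_{1/4}^{1/2} 1/t dt = log 2`). -/
def S_hf0 : Prop := ∀ P : ℕ → ℝ → ℝ, SpecHyp P → ∃ K : ℝ, 0 ≤ K ∧ ∀ J : ℕ, ∀ᶠ N : ℕ in atTop,
  |2 * (∫ θ in (0 : ℝ)..(1 / 2), (G0 (2 * θ) - G0 (2 ^ (J + 1) * θ)) / (2 * Real.pi ^ 2 * θ ^ 2) *
    P N θ) - 1 / Real.pi ^ 2 * (J * Real.log 2)| ≤ K

/-- X2: the Fejér kernels averaged over a window.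

Proof.  `Fj j θ = (1 - cos (2π j θ)) / (2 sin² (π θ))`; `2 sin (π θ) ∑_{m ≤ j < m+H} cos (2π j θ) =
sin (2π (m + H - 1/2) θ) - sin (2π (m - 1/2) θ)`, so `|∑ cos| ≤ 1/sin (π θ) ≤ 1/(2θ)`
(`sin (π θ) ≥ 2θ`), so the average differs from `1/(2 sin² (πθ))` by at most
`(1/(2Hθ)) * 1/(8θ²)`; and `|1/(2 sin² x) - 1/(2x²)| ≤ 1/2`, `x = πθ ∈ (0, π/2]` (see P/V5.lean in the
archive: `sin x ≥ x/√(1+x²)`). -/
def S_avgker : Prop := ∀ (m H : ℕ) (θ : ℝ), 1 ≤ H → 0 < θ → θ ≤ 1 / 2 →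
  |(1 / H : ℝ) * ∑ j ∈ Finset.Ico m (m + H), Fj j θ - 1 / (2 * Real.pi ^ 2 * θ ^ 2)| ≤
    1 + 1 / (16 * H * θ ^ 3)

/-- X3: like V2 (P/V2.lean in the archive), with `θ³`: the block `[2^j h, 2^(j+1) h]` contributes at
most `K (2^(j+1) h)² / (2^j h)³ = 4 K / (2^j h)`, and these sum to at most `8 K / h`. -/
def S_cube : Prop := ∀ P : ℕ → ℝ → ℝ, (∀ N, Continuous (P N)) → (∀ N θ, 0 ≤ P N θ) →
  (∃ K : ℝ, 0 ≤ K ∧ ∀ h : ℝ, 0 < h → h ≤ 1 / 2 → ∀ᶠ N : ℕ in atTop,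
    ∫ θ in (0 : ℝ)..h, P N θ ≤ K * h ^ 2) →
  ∃ K : ℝ, 0 ≤ K ∧ ∀ h : ℝ, 0 < h → h ≤ 1 / 4 → ∀ᶠ N : ℕ in atTop,
    ∫ θ in h..(1 / 2 : ℝ), P N θ / θ ^ 3 ≤ K / h

/-- X4: the low frequencies (a part of V6, see P/V6.lean in the archive).

Proof.  Let `J` with `2^J ≤ m h < 2^(J+1)` and `h' = h/2^J`, so `1/m ≤ h' ≤ 2/m`; write on `(0, 1/2]`
`G0 (θ/h) Fj P = G0 (θ/h') Fj P + D (Fj - ck) P + D ck (P - θ) + D ck θ`, `D = G0 (θ/h) - G0 (θ/h')`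
(`= 0` for `θ ≥ h`, `0 ≤ D ≤ 1`).  Twice the integrals: `≤ 2 m² ∫_0^{h'} P ≤ 8 K1`; `≤ 2 KB`;
`≤ 2 K3 h log (m + 2 * 2^J/h)³ ≤ 2 K3 h log (3m)³ ≤ 2 K3` (the condition of V3 holds as
`log (3m) ≥ 1`); `(1/π²) log (m h) + O(K4)`. -/
def S_low : Prop := S_mass → S_middle → S_mainlog → S_kern → ∀ P : ℕ → ℝ → ℝ, SpecHyp P →
  ∃ K : ℝ, 0 ≤ K ∧ ∀ (m : ℕ) (h : ℝ), 0 < h → h ≤ 1 / 4 → 1 ≤ m * h →
    h * Real.log (3 * m) ^ 3 ≤ 1 → ∀ᶠ N : ℕ in atTop,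
    |2 * (∫ θ in (0 : ℝ)..(1 / 2), G0 (θ / h) * (Fj m θ * P N θ)) -
      1 / Real.pi ^ 2 * Real.log (m * h)| ≤ K

/-- X5: assembly.

Proof.  Let `J` be such that `h := 2^(-(J+1))` satisfies `1/(16 H) < h ≤ 1/(8 H)` (`H ≥ 8` by the
condition).  For `m ≤ j < m + H ≤ 2m`: `j h ≥ m/(16 H) ≥ 1`, `h log (3j)³ ≤ h (2 log (3m))³ ≤ 8 H h ≤ 1`,
so by S_low `2 ∫ G0 (θ/h) Fj j P = (1/π²) log (j h) + O(K)` and `log (j h) = log (m h) + O(log 2)`; the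
same for the average over `j`.  The rest is `2 ∫ (1 - G0 (θ/h)) A(θ) P`, `A` the average of the
`Fj j`, and `|A - 1/(2π²θ²)| ≤ 1 + 1/(16Hθ³)` by S_avgker; the integrand vanishes for `θ ≤ h/2`, so
the error is at most `2 ∫_0^{1/2} P + (1/(8H)) ∫_{h/2}^{1/2} P/θ³ ≤ 2 KB + (1/(8H)) 2K/h ≤ C`.  Finally
`1 - G0 (θ/h) = (1 - G0 (2θ)) + (G0 (2θ) - G0 (2^(J+1) θ))`; the first part contributes at most
`2 ∫_{1/4}^{1/2} P/(2π²θ²) ≤ 2 KB`, and the second, by S_hf0, `(1/π²) J log 2 + O(K)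
= (1/π²) log (1/h) + O(1)`.  Sum: `(1/π²) (log (m h) + log (1/h)) + O(1)`. -/
def S_varavg : Prop := S_mass → S_middle → S_mainlog → S_kern → S_hf0 → S_avgker → S_cube → S_low →
  ∀ P : ℕ → ℝ → ℝ, SpecHyp P → ∃ K : ℝ, 0 ≤ K ∧ ∀ m H : ℕ, 1 ≤ m → Real.log (3 * m) ^ 3 ≤ H →
    8 ≤ H → 16 * H ≤ m → ∀ᶠ N : ℕ in atTop,
    |(1 / H : ℝ) * ∑ j ∈ Finset.Ico m (m + H), 2 * (∫ θ in (0 : ℝ)..(1 / 2), Fj j θ * P N θ) -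
      1 / Real.pi ^ 2 * Real.log m| ≤ K

end Pool.Agent.H666.LRC
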