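import Pool.Agent.H666.LRC.All7
import Pool.Agent.H666.LRC.P.X1
import Pool.Agent.H666.LRC.P.X2
import Pool.Agent.H666.LRC.P.X3
import Pool.Agent.H666.LRC.P.X4
import Pool.Agent.H666.LRC.P.X5

/-! The subtasks X1-X5, collected (proved by helpers 401, 336, 974, 118, 779 of the team), and the
variance averaged over short windows. -/

open Filter Topology Set MeasureTheory

namespace Pool.Agent.H666.LRC

/-- **the variance of the sums of `m` gaps on average over short windows of `m`** -/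
theorem varavg_final (hRH : RiemannHypothesis) {b : ℕ → ℝ} (hb : Close b) :
    ∃ K : ℝ, ∀ m H : ℕ, 1 ≤ m → Real.log (3 * m) ^ 3 ≤ H → 16 * H ≤ m → ∀ᶠ N : ℕ in atTop,
      |(1 / H : ℝ) * ∑ j ∈ Finset.Ico m (m + H), Vr b N j - 1 / Real.pi ^ 2 * Real.log m| ≤ K := by
  obtain ⟨hb1, K0, hK0, hb2⟩ := close_sq hRH hb
  obtain ⟨K, hK, h⟩ := PX779.X5 PV686.V1 PV437.V3 PV297.V4 PV933.V5 PX401.X1 PX336.X2 PX974.X3 PX118.X4
    (PS b) (specHyp PV56.V8 hRH hb)
  refine ⟨K + 1, fun m H hm hL hHm => ?_⟩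
  have hm0 : (1 : ℝ) ≤ m := by exact_mod_cast hm
  have h16 : 16 * (H : ℝ) ≤ m := by exact_mod_cast hHm
  have hlog1 : 1 ≤ Real.log (3 * m) := by
    rw [Real.le_log_iff_exp_le (by positivity)]
    have := Real.exp_one_lt_d9
    linarith
  have hH1 : (1 : ℝ) ≤ H := (one_le_pow₀ hlog1).trans hL
  have hm16 : (16 : ℝ) ≤ m := by linarith
  have hlog2 : 2 ≤ Real.log (3 * m) := by
    rw [Real.le_log_iff_exp_le (by positivity)]
    have h1 := Real.exp_one_lt_d9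
    have h2 : Real.exp 2 = Real.exp 1 ^ 2 := by rw [← Real.exp_nat_mul]; norm_num
    rw [h2]
    nlinarith [Real.exp_pos 1]
  have hH8 : (8 : ℝ) ≤ H := by
    have : (2 : ℝ) ^ 3 ≤ Real.log (3 * m) ^ 3 := pow_le_pow_left₀ (by norm_num) hlog2 3
    linarith
  have hH8' : 8 ≤ H := by exact_mod_cast hH8
  have h1 := h m H hm hL hH8' hHm
  have h2 : ∀ᶠ N : ℕ in atTop, ∀ j ∈ Finset.Ico m (m + H),
      |Vr b N j - 2 * ∫ θ in (0 : ℝ)..(1 / 2), Fj j θ * PS b N θ| ≤ 1 := by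
    rw [Filter.eventually_all_finset]
    intro j hj
    have hj1 : 1 ≤ j := by
      have := (Finset.mem_Ico.1 hj).1
      omega
    have h3 := PV581.V7 b K0 hK0 hb1 hb2 (fun m => Pool.Agent.H666.ZG.expand hb1 m) j hj1
    obtain ⟨N1, hN1⟩ := (Metric.tendsto_atTop.1 h3) 1 one_pos
    filter_upwards [eventually_ge_atTop N1] with N hN
    have h4 := hN1 N hN
    rw [Real.dist_eq, sub_zero] at h4
    exact h4.le
  filter_upwards [h1, h2] with N a1 a2
  have hHpos : (0 : ℝ) < H := by linarith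
  have e : (1 / H : ℝ) * ∑ j ∈ Finset.Ico m (m + H), Vr b N j - 1 / Real.pi ^ 2 * Real.log m =
      (1 / H : ℝ) * ∑ j ∈ Finset.Ico m (m + H),
        (Vr b N j - 2 * ∫ θ in (0 : ℝ)..(1 / 2), Fj j θ * PS b N θ) +
      ((1 / H : ℝ) * ∑ j ∈ Finset.Ico m (m + H), 2 * (∫ θ in (0 : ℝ)..(1 / 2), Fj j θ * PS b N θ) -
        1 / Real.pi ^ 2 * Real.log m) := by
    rw [Finset.sum_sub_distrib]
    ring
  have a3 : |(1 / H : ℝ) * ∑ j ∈ Finset.Ico m (m + H),
        (Vr b N j - 2 * ∫ θ in (0 : ℝ)..(1 / 2), Fj j θ * PS b N θ)| ≤ 1 := by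
    rw [abs_mul, abs_of_pos (by positivity : (0 : ℝ) < 1 / H), one_div, inv_mul_le_iff₀ hHpos, mul_one]
    refine (Finset.abs_sum_le_sum_abs _ _).trans ((Finset.sum_le_sum a2).trans ?_)
    rw [Finset.sum_const, Nat.card_Ico, nsmul_eq_mul, mul_one]
    simp
  rw [e]
  refine (abs_add_le _ _).trans ?_
  linarith

end Pool.Agent.H666.LRC
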