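import Pool.Agent.H666.LRC.Defs

/-! Basic facts on the cosine transform. -/

open Filter Topology Set MeasureTheory

namespace Pool.Agent.H666.LRC

lemma ct_even (g : ℝ → ℝ) (x : ℝ) : ct g (-x) = ct g x := by
  unfold ct
  congr 1
  apply intervalIntegral.integral_congr
  intro t _
  simp only
  rw [show 2 * Real.pi * -x * t = -(2 * Real.pi * x * t) by ring, Real.cos_neg]

lemma st_bdd {g : ℝ → ℝ} (hg : Continuous g) : ∃ B : ℝ, 0 ≤ B ∧ ∀ x, |st g x| ≤ B := by
  obtain ⟨M, hM⟩ := isCompact_Icc.exists_bound_of_continuousOn (s := Set.Icc (0 : ℝ) 1) hg.continuousOn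
  refine ⟨2 * |M|, by positivity, fun x => ?_⟩
  unfold st
  rw [abs_mul, abs_two]
  apply mul_le_mul_of_nonneg_left _ (by norm_num)
  have h1 := intervalIntegral.norm_integral_le_of_norm_le_const (a := (0 : ℝ)) (b := 1)
    (f := fun t => g t * Real.sin (2 * Real.pi * x * t)) (C := |M|) (by
      intro t ht
      rw [Set.uIoc_of_le zero_le_one] at ht
      have h2 := hM t ⟨ht.1.le, ht.2⟩
      rw [norm_mul]
      have h3 : ‖Real.sin (2 * Real.pi * x * t)‖ ≤ 1 := Real.abs_sin_le_one _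
      calc ‖g t‖ * ‖Real.sin (2 * Real.pi * x * t)‖ ≤ |M| * 1 := by
            apply mul_le_mul (h2.trans (le_abs_self _)) h3 (norm_nonneg _) (abs_nonneg _)
        _ = |M| := mul_one _)
  rw [sub_zero, abs_one, mul_one, Real.norm_eq_abs] at h1
  exact h1

lemma mu_cont {g : ℝ → ℝ} (hg : Continuous g) (j : ℕ) : Continuous (mu j g) := by
  unfold mu
  fun_prop

lemma ct_lip (hT3 : S_deriv) {g : ℝ → ℝ} (hg : Continuous g) :
    ∃ B : ℝ, 0 ≤ B ∧ ∀ x y, |ct g x - ct g y| ≤ B * |x - y| := by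
  obtain ⟨B, hB, h⟩ := st_bdd (mu_cont hg 1)
  refine ⟨B, hB, fun x y => ?_⟩
  have := Convex.norm_image_sub_le_of_norm_hasDerivWithin_le (f := ct g)
    (f' := fun x => -(st (mu 1 g) x)) (s := Set.univ) (C := B) (x := y) (y := x)
    (fun z _ => (hT3 g hg z).1.hasDerivWithinAt) (fun z _ => by
      rw [norm_neg]
      exact h z) convex_univ (mem_univ _) (mem_univ _)
  exact this

lemma adm_gF : Adm gF := by
  constructor
  · unfold gF
    apply ContDiff.mul
    · exact contDiff_const.sub contDiff_id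
    · exact contDiff_const.add (Real.contDiff_cos.comp (contDiff_const.mul contDiff_id))
  · unfold gF
    norm_num

lemma gF_zero : gF 0 = 2 := by
  unfold gF
  norm_num

/-- the properties of the transform of an admissible function -/
lemma ct_props (hT1 : S_ctdecay) (hT3 : S_deriv) {g : ℝ → ℝ} (hg : Adm g) :
    ∃ C : ℝ, 0 ≤ C ∧ (∀ x, |ct g x| ≤ C / (1 + x ^ 2)) ∧
      ∀ x y, |ct g x - ct g y| ≤ C * |x - y| := by
  obtain ⟨C1, h1, h2⟩ := hT1 g hg.1 hg.2
  obtain ⟨C2, h3, h4⟩ := ct_lip hT3 hg.1.continuous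
  refine ⟨max C1 C2, le_max_of_le_left h1, fun x => (h2 x).trans ?_, fun x y => (h4 x y).trans ?_⟩
  · apply div_le_div_of_nonneg_right (le_max_left _ _)
    positivity
  · exact mul_le_mul_of_nonneg_right (le_max_right _ _) (abs_nonneg _)

lemma decay_le {f : ℝ → ℝ} {C : ℝ} (hC : 0 ≤ C) (h : ∀ x, |f x| ≤ C / (1 + x ^ 2)) (x : ℝ) :
    |f x| ≤ C := by
  refine (h x).trans ?_
  apply div_le_self hC
  nlinarith [sq_nonneg x]

end Pool.Agent.H666.LRC
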