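import Pool.Agent.H666.LRC.Defs
import Pool.Agent.H666.ZG.TL
import Pool.Agent.H666.ZG.Cov

/-! The moments of the sums of the centred gaps. -/

open Filter Topology Set MeasureTheory

namespace Pool.Agent.H666.LRC

open SG (ord NZ)
open Pool.Agent.H666.ZG (Sr ag ag_small sum_ag shift_lim)

lemma Y_ag (k n : ℕ) : Y ag k n = Sr k n - k := sum_ag k n

/-- the number of large deviations -/
lemma count_rig (hRH : RiemannHypothesis) : ∃ A c : ℝ, 1 ≤ A ∧ 0 < c ∧ ∀ r : ℕ, 1 ≤ r →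
    ∃ n0 : ℕ, ∀ N : ℕ, ∀ lam : ℝ, A * Real.log (r + 1) ≤ lam →
      (((Finset.Icc 1 N).filter (fun n : ℕ => n0 ≤ n ∧ lam ≤ |Sr r n - r|)).card : ℝ) ≤
        N * Real.exp (-(c * lam)) := by
  classical
  obtain ⟨c, C, hc, hC, hrig⟩ := Rig.rigid (Pool.Agent.H707.SM.rhs_of hRH) _ Rig.close_log
  refine ⟨max C 3, c, le_trans hC (le_max_left _ _), hc, fun r hr => ?_⟩
  have hr1 : (1 : ℝ) ≤ r := by exact_mod_cast hr
  have hlog0 : 0 < Real.log (r + 1) := Real.log_pos (by linarith)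
  have htel : ∀ n : ℕ, Sr r n =
      (ord (n + r) * Real.log (ord (n + r)) - ord n * Real.log (ord n)) / (2 * Real.pi) := by
    intro n
    have h1 := Finset.sum_range_sub (fun i => ord (n + i) * Real.log (ord (n + i))) r
    unfold Pool.Agent.H666.ZG.Sr LG.dlt
    rw [← Finset.sum_div]
    congr 1
  obtain ⟨n0, hn0⟩ : ∃ n0 : ℕ, ∀ n : ℕ, n0 ≤ n → (r : ℝ) ≤ Real.log n := by
    have := (Real.tendsto_log_atTop.comp tendsto_natCast_atTop_atTop).eventually_ge_atTop (r : ℝ)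
    exact this.exists_forall_of_atTop
  refine ⟨n0, fun N lam hlam => ?_⟩
  have hlam0 : 0 < lam := lt_of_lt_of_le (by
    have : (3 : ℝ) ≤ max C 3 := le_max_right _ _
    positivity) hlam
  have h1 := hrig N r hr lam (le_trans (mul_le_mul_of_nonneg_right (le_max_left C 3) hlog0.le) hlam)
  have e : {n : ℕ | 1 ≤ n ∧ n ≤ N ∧ (r : ℝ) ≤ Real.log n ∧ lam ≤
      |(ord (n + r) * Real.log (ord (n + r)) - ord n * Real.log (ord n)) / (2 * Real.pi) - r|} =
      (((Finset.Icc 1 N).filter (fun n : ℕ => (r : ℝ) ≤ Real.log n ∧ lam ≤ |Sr r n - r|) :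
        Finset ℕ) : Set ℕ) := by
    ext n
    simp only [Set.mem_ofPred_eq, Finset.coe_filter, Finset.mem_Icc, htel]
    tauto
  rw [e, Set.ncard_coe_finset] at h1
  have hsub : (Finset.Icc 1 N).filter (fun n : ℕ => n0 ≤ n ∧ lam ≤ |Sr r n - r|) ⊆
      (Finset.Icc 1 N).filter (fun n : ℕ => (r : ℝ) ≤ Real.log n ∧ lam ≤ |Sr r n - r|) := by
    intro n hn
    rw [Finset.mem_filter] at hn ⊢
    exact ⟨hn.1, hn0 n hn.2.1, hn.2.2⟩
  have h2 : (((Finset.Icc 1 N).filter (fun n : ℕ => n0 ≤ n ∧ lam ≤ |Sr r n - r|)).card : ℝ) ≤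
      (((Finset.Icc 1 N).filter (fun n : ℕ => (r : ℝ) ≤ Real.log n ∧ lam ≤ |Sr r n - r|)).card : ℝ) := by
    exact_mod_cast Finset.card_le_card hsub
  refine (h2.trans h1).trans ?_
  apply mul_le_mul_of_nonneg_left _ (Nat.cast_nonneg N)
  apply Real.exp_le_exp.2
  have h3 : 3 ≤ lam / Real.log (r + 1) := by
    rw [le_div_iff₀ hlog0]
    exact (mul_le_mul_of_nonneg_right (le_max_right C 3) hlog0.le).trans hlam
  have h4 : 1 ≤ Real.log (lam / Real.log (r + 1)) := by
    rw [Real.le_log_iff_exp_le (by linarith)]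
    have := Real.exp_one_lt_d9
    linarith
  have h5 : c * lam * 1 ≤ c * lam * Real.log (lam / Real.log (r + 1)) :=
    mul_le_mul_of_nonneg_left h4 (mul_nonneg hc.le hlam0.le)
  linarith

/-- the mean of the centred gaps tends to zero -/
lemma mean_ag (hRH : RiemannHypothesis) :
    Tendsto (fun N : ℕ => (1 / N : ℝ) * ∑ n ∈ Finset.Icc 1 N, ag n) atTop (𝓝 0) := by
  rw [Metric.tendsto_atTop]
  intro ε hε
  have h1 := Pool.Agent.H707.SM.sum_dlt_le (ε / 2) (by positivity)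
  have h2 := Pool.Agent.H707.SM.sum_dlt_ge hRH (ε / 2) (by positivity)
  obtain ⟨N0, hN0⟩ := (h1.and (h2.and (eventually_gt_atTop 0))).exists_forall_of_atTop
  refine ⟨N0, fun N hN => ?_⟩
  obtain ⟨a1, a2, a3⟩ := hN0 N hN
  have hNpos : (0 : ℝ) < N := by exact_mod_cast a3
  have e : ∑ n ∈ Finset.Icc 1 N, ag n = ∑ n ∈ Finset.Icc 1 N, LG.dlt n - N := by
    unfold Pool.Agent.H666.ZG.ag
    rw [Finset.sum_sub_distrib]
    simp
  rw [Real.dist_eq, sub_zero, e, one_div, abs_mul, abs_of_pos (inv_pos.2 hNpos), inv_mul_eq_div,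
    div_lt_iff₀ hNpos]
  have : |∑ n ∈ Finset.Icc 1 N, LG.dlt n - N| ≤ ε / 2 * N := by
    rw [abs_le]
    constructor <;> linarith
  nlinarith

lemma ag_div (hRH : RiemannHypothesis) : Tendsto (fun n : ℕ => ag n / n) atTop (𝓝 0) := by
  have h := ag_small hRH
  have h1 : Tendsto (fun n : ℕ => ag n ^ 2 / n + 1 / (n : ℝ)) atTop (𝓝 0) := by
    have h2 : Tendsto (fun n : ℕ => 1 / (n : ℝ)) atTop (𝓝 0) :=
      tendsto_const_nhds.div_atTop tendsto_natCast_atTop_atTop
    simpa using h.add h2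
  apply squeeze_zero_norm _ h1
  intro n
  rw [Real.norm_eq_abs, abs_div, ← add_div, Nat.abs_cast]
  apply div_le_div_of_nonneg_right _ (Nat.cast_nonneg n)
  rw [abs_le]
  constructor <;> nlinarith [sq_nonneg (ag n - 1), sq_nonneg (ag n + 1)]

lemma mean_Y (hRH : RiemannHypothesis) (k : ℕ) :
    Tendsto (fun N : ℕ => (1 / N : ℝ) * ∑ n ∈ Finset.Icc 1 N, Y ag k n) atTop (𝓝 0) := by
  have h1 : ∀ i : ℕ, Tendsto (fun N : ℕ => (1 / N : ℝ) * ∑ n ∈ Finset.Icc 1 N, ag (n + i))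
      atTop (𝓝 0) := by
    intro i
    have := (shift_lim (ag_div hRH) i).add (mean_ag hRH)
    simpa using this
  have h2 : ∀ N : ℕ, (1 / N : ℝ) * ∑ n ∈ Finset.Icc 1 N, Y ag k n =
      ∑ i ∈ Finset.range k, (1 / N : ℝ) * ∑ n ∈ Finset.Icc 1 N, ag (n + i) := by
    intro N
    unfold Y
    rw [Finset.sum_comm, Finset.mul_sum]
  simp only [h2]
  have h3 : (0 : ℝ) = ∑ i ∈ Finset.range k, 0 := by simp
  rw [h3]
  apply tendsto_finsetSum
  intro i _
  exact h1 i

/-- **the moments** -/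
theorem mom_ag (hRH : RiemannHypothesis) (hT7 : S_layer) : Mom ag := by
  constructor
  · intro k _ ε hε
    have h := (Metric.tendsto_atTop.1 (mean_Y hRH k)) ε hε
    obtain ⟨N0, hN0⟩ := h
    filter_upwards [eventually_ge_atTop N0, eventually_gt_atTop 0] with N h1 h2
    have hNpos : (0 : ℝ) < N := by exact_mod_cast h2
    have h3 := hN0 N h1
    rw [Real.dist_eq, sub_zero, one_div, abs_mul, abs_of_pos (inv_pos.2 hNpos), inv_mul_eq_div,
      div_lt_iff₀ hNpos] at h3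
    exact h3.le
  · intro p
    obtain ⟨A, c, hA, hc, hcount⟩ := count_rig hRH
    obtain ⟨K, hK, hlay⟩ := hT7 p c hc
    have hlog2 : 0 < Real.log 2 := Real.log_pos (by norm_num)
    refine ⟨A ^ p + (K + 1) / Real.log 2 ^ p, by positivity, fun k hk => ?_⟩
    obtain ⟨n0, hn0⟩ := hcount k hk
    have hk1 : (1 : ℝ) ≤ k := by exact_mod_cast hk
    have hlogk : Real.log 2 ≤ Real.log (k + 1) := Real.log_le_log (by norm_num) (by linarith)
    have hU : 0 ≤ A * Real.log (k + 1) := mul_nonneg (by linarith) (by linarith)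
    set M : ℝ := ∑ n ∈ Finset.range n0, |Y ag k n| ^ p with hM
    filter_upwards [Pool.Agent.H707.SM.const_small M 1 one_pos] with N hN
    have h1 := hlay (fun n => |Sr k n - k|) (A * Real.log (k + 1)) n0 N hU (fun n => abs_nonneg _)
      (fun lam hlam => hn0 N lam hlam)
    have hsplit : ∑ n ∈ Finset.Icc 1 N, |Y ag k n| ^ p ≤
        M + ∑ n ∈ (Finset.Icc 1 N).filter (fun n : ℕ => n0 ≤ n), |Y ag k n| ^ p := by
      rw [← Finset.sum_filter_add_sum_filter_not (Finset.Icc 1 N) (fun n : ℕ => n0 ≤ n)]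
      have : ∑ n ∈ (Finset.Icc 1 N).filter (fun n : ℕ => ¬ n0 ≤ n), |Y ag k n| ^ p ≤ M := by
        rw [hM]
        apply Finset.sum_le_sum_of_subset_of_nonneg
        · intro n hn
          rw [Finset.mem_filter] at hn
          rw [Finset.mem_range]
          omega
        · intro n _ _
          positivity
      linarith
    have h2 : ∑ n ∈ (Finset.Icc 1 N).filter (fun n : ℕ => n0 ≤ n), |Y ag k n| ^ p ≤
        ((A * Real.log (k + 1)) ^ p + K) * N := by
      simp only [Y_ag]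
      exact h1
    refine hsplit.trans ?_
    have h3 : K + 1 ≤ (K + 1) / Real.log 2 ^ p * Real.log (k + 1) ^ p := by
      rw [div_mul_eq_mul_div, le_div_iff₀ (by positivity)]
      apply mul_le_mul_of_nonneg_left _ (by linarith)
      exact pow_le_pow_left₀ hlog2.le hlogk p
    have h4 : (A ^ p + (K + 1) / Real.log 2 ^ p) * Real.log (k + 1) ^ p * N =
        (A * Real.log (k + 1)) ^ p * N + (K + 1) / Real.log 2 ^ p * Real.log (k + 1) ^ p * N := by
      rw [mul_pow]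
      ring
    rw [h4]
    have h5 := mul_le_mul_of_nonneg_right h3 (Nat.cast_nonneg (α := ℝ) N)
    have h6 : ((A * Real.log (k + 1)) ^ p + K) * N =
        (A * Real.log (k + 1)) ^ p * N + K * N := by ring
    rw [h6] at h2
    have h7 : (K + 1) * (N : ℝ) = K * N + N := by ring
    rw [h7] at h5
    linarith

end Pool.Agent.H666.LRC
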