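import Pool.Agent.H666.LRC.Bas
import Pool.Agent.H666.LRC.Mom
import Pool.Agent.H666.ZG.Blk

/-! The pair sums of the blocks near the diagonal. -/

open Filter Topology Set MeasureTheory

namespace Pool.Agent.H666.LRC

open SG (ord NZ)
open Pool.Agent.TH873.EW (XV)
open Pool.Agent.Y747 (Bx mem_Bx)
open Pool.Agent.H707.SM (Bx_eq XV_large)
open Pool.Agent.H666.ZG (Sr Sr_upper Sr_lower Sr_nonneg)

/-- the term of the pair sum -/
noncomputable def PP (f : ℝ → ℝ) (h V : ℝ) (n m : ℕ) : ℝ :=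
  Real.exp (-(ord n - ord m) ^ 2 / 4) * f (h * Real.log V / (2 * Real.pi) * (ord n - ord m))

lemma PP_symm {f : ℝ → ℝ} (hf : ∀ x, f (-x) = f x) (h V : ℝ) (n m : ℕ) :
    PP f h V n m = PP f h V m n := by
  unfold PP
  have e1 : (ord n - ord m) ^ 2 = (ord m - ord n) ^ 2 := by ring
  have e2 : h * Real.log V / (2 * Real.pi) * (ord n - ord m) =
    -(h * Real.log V / (2 * Real.pi) * (ord m - ord n)) := by ring
  rw [e1, e2, hf]

lemma PP_self (f : ℝ → ℝ) (h V : ℝ) (n : ℕ) : PP f h V n n = f 0 := by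
  unfold PP
  simp

/-- the sum of the terms of the window at `n`, at lags up to `R` -/
noncomputable def GR (f : ℝ → ℝ) (h : ℝ) (R n : ℕ) : ℝ :=
  f 0 + 2 * ∑ k ∈ Finset.Icc 1 R, f (h * Sr k n)

lemma GR_bdd {f : ℝ → ℝ} {C : ℝ} (hf : ∀ x, |f x| ≤ C) (h : ℝ) (R n : ℕ) :
    |GR f h R n| ≤ C * (1 + 2 * R) := by
  unfold GR
  have h1 : |∑ k ∈ Finset.Icc 1 R, f (h * Sr k n)| ≤ R * C := by
    refine (Finset.abs_sum_le_sum_abs _ _).trans ?_
    refine (Finset.sum_le_card_nsmul _ _ C fun k _ => hf _).trans (le_of_eq ?_)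
    rw [nsmul_eq_mul, Nat.card_Icc, Nat.add_sub_cancel]
  calc |f 0 + 2 * ∑ k ∈ Finset.Icc 1 R, f (h * Sr k n)| ≤
      |f 0| + |2 * ∑ k ∈ Finset.Icc 1 R, f (h * Sr k n)| := abs_add_le _ _
    _ = |f 0| + 2 * |∑ k ∈ Finset.Icc 1 R, f (h * Sr k n)| := by rw [abs_mul, abs_two]
    _ ≤ C + 2 * (R * C) := add_le_add (hf 0) (mul_le_mul_of_nonneg_left h1 (by norm_num))
    _ = _ := by ring

/-- the near pairs -/
noncomputable def nearS (f : ℝ → ℝ) (h V : ℝ) (R : ℕ) : ℝ :=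
  ∑ n ∈ Bx V, ∑ m ∈ (Bx V).filter (fun m => n ≤ m + R ∧ m ≤ n + R), PP f h V n m

/-- **near pairs of a block** -/
theorem near_blk (hT11 : S_comb) (hT12 : S_pt) {f : ℝ → ℝ} {C : ℝ} (hC : 0 ≤ C)
    (hf : ∀ x, |f x| ≤ C / (1 + x ^ 2)) (hlip : ∀ x y, |f x - f y| ≤ C * |x - y|)
    (hev : ∀ x, f (-x) = f x) {h : ℝ} (hh : 0 < h) (R : ℕ) {ε : ℝ} (hε : 0 < ε)
    (hcard : ∃ V0 : ℝ, ∀ V : ℝ, V0 ≤ V → ((Bx V).card : ℝ) ≤ 2 * XV V) :
    ∃ V0 : ℝ, 10 ≤ V0 ∧ ∀ V : ℝ, V0 ≤ V →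
      |∑ n ∈ Bx V, GR f h R n - nearS f h V R| ≤ ε * XV V := by
  classical
  set e : ℝ := ε / (8 * (R + 1)) with he
  have hR0 : (0 : ℝ) ≤ R := Nat.cast_nonneg R
  have he0 : 0 < e := by positivity
  obtain ⟨η, L0, hη, hL0, hpt⟩ := hT12 f C hC hf hlip h hh e he0
  -- thresholds
  have hup : ∀ k : ℕ, ∃ V1 : ℝ, ∀ V : ℝ, V1 ≤ V → ∀ n : ℕ, n ∈ Bx V → n + k ∈ Bx V →
      Sr k n ≤ (1 + η) * (Real.log V / (2 * Real.pi) * (ord (n + k) - ord n)) :=
    fun k => Sr_upper k η hη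
  choose V1 hV1 using hup
  obtain ⟨V2, hV2⟩ := XV_large (8 * (R : ℝ) * R * C / ε)
  obtain ⟨V3, hV3⟩ := hcard
  have hlim : Tendsto (fun V : ℝ => Real.log V / (2 * Real.pi)) atTop atTop :=
    Real.tendsto_log_atTop.atTop_div_const (by positivity)
  obtain ⟨V4, hV4⟩ := (hlim.eventually_ge_atTop L0).exists_forall_of_atTop
  set VS : ℝ := ∑ k ∈ Finset.Icc 1 R, |V1 k| with hVS
  have hVS1 : ∀ k ∈ Finset.Icc 1 R, V1 k ≤ VS := by
    intro k hk
    refine (le_abs_self _).trans ?_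
    exact Finset.single_le_sum (f := fun k => |V1 k|) (fun _ _ => abs_nonneg _) hk
  refine ⟨max 10 (max VS (max V2 (max V3 V4))), le_max_left _ _, fun V hV => ?_⟩
  have c0 : 10 ≤ V := (le_max_left _ _).trans hV
  have c1 : VS ≤ V := ((le_max_left _ _).trans (le_max_right _ _)).trans hV
  have c2 : V2 ≤ V := ((le_max_left _ _).trans ((le_max_right _ _).trans (le_max_right _ _))).trans hV
  have c3 : V3 ≤ V := ((le_max_left _ _).trans ((le_max_right _ _).trans
    ((le_max_right _ _).trans (le_max_right _ _)))).trans hV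
  have c4 : V4 ≤ V := ((le_max_right _ _).trans ((le_max_right _ _).trans
    ((le_max_right _ _).trans (le_max_right _ _)))).trans hV
  have d2 := hV2 V c2
  have d3 := hV3 V c3
  have d4 := hV4 V c4
  set X := XV V with hX
  have hX0 : 0 ≤ X := by
    have : (0 : ℝ) ≤ (Bx V).card := Nat.cast_nonneg _
    linarith
  set a := NZ (V + 1) + 1 with ha
  set b := NZ (2 * V - 1) with hb
  have hBx : Bx V = Finset.Icc a b := Bx_eq V
  -- the near sum
  have hcomb := hT11 a b R (PP f h V) (fun n m => PP_symm hev h V n m)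
  have hnear : nearS f h V R = ∑ n ∈ Bx V, f 0 + 2 * ∑ k ∈ Finset.Icc 1 R,
      ∑ n ∈ (Bx V).filter (fun n => n + k ≤ b), PP f h V n (n + k) := by
    unfold nearS
    rw [hBx, hcomb]
    simp only [PP_self]
  have hG : ∑ n ∈ Bx V, GR f h R n = ∑ n ∈ Bx V, f 0 + 2 * ∑ k ∈ Finset.Icc 1 R,
      ∑ n ∈ Bx V, f (h * Sr k n) := by
    unfold GR
    rw [Finset.sum_add_distrib, ← Finset.mul_sum, Finset.sum_comm]
  rw [hG, hnear]
  have hdiff : ∀ k ∈ Finset.Icc 1 R, |∑ n ∈ Bx V, f (h * Sr k n) -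
      ∑ n ∈ (Bx V).filter (fun n => n + k ≤ b), PP f h V n (n + k)| ≤ 2 * X * e + R * C := by
    intro k hk
    have hk' := Finset.mem_Icc.1 hk
    rw [← Finset.sum_filter_add_sum_filter_not (Bx V) (fun n => n + k ≤ b)]
    have h1 : |∑ n ∈ (Bx V).filter (fun n => n + k ≤ b), f (h * Sr k n) -
        ∑ n ∈ (Bx V).filter (fun n => n + k ≤ b), PP f h V n (n + k)| ≤ 2 * X * e := by
      rw [← Finset.sum_sub_distrib]
      refine (Finset.abs_sum_le_sum_abs _ _).trans ?_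
      have h2 : ∀ n ∈ (Bx V).filter (fun n => n + k ≤ b),
          |f (h * Sr k n) - PP f h V n (n + k)| ≤ e := by
        intro n hn
        rw [Finset.mem_filter] at hn
        obtain ⟨hn1, hn2⟩ := hn
        have hn3 : n + k ∈ Bx V := by
          rw [hBx, Finset.mem_Icc] at hn1 ⊢
          omega
        have hn0 : 1 ≤ n := (mem_Bx.1 hn1).1
        set L : ℝ := Real.log V / (2 * Real.pi) with hL
        have hLpos : 0 < L := hL0.trans_le d4
        have hm : ord n ≤ ord (n + k) := SG.ord_mono hn0 (by omega)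
        set s : ℝ := L * (ord (n + k) - ord n) with hs
        have hs0 : 0 ≤ s := mul_nonneg hLpos.le (by linarith)
        have hlow : s ≤ Sr k n := Sr_lower c0 hn1 hn3
        have hupp : Sr k n ≤ (1 + η) * s := hV1 k V ((hVS1 k hk).trans c1) n hn1 hn3
        have h3 := hpt s (Sr k n) L hs0 hlow hupp d4
        have e1 : PP f h V n (n + k) = Real.exp (-(s / L) ^ 2 / 4) * f (h * s) := by
          rw [PP_symm hev]
          unfold PP
          have e2 : s / L = ord (n + k) - ord n := by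
            rw [hs, mul_div_cancel_left₀ _ hLpos.ne']
          have e3 : h * Real.log V / (2 * Real.pi) * (ord (n + k) - ord n) = h * s := by
            rw [hs, hL]
            ring
          rw [e2, e3]
        rw [e1]
        exact h3
      refine (Finset.sum_le_card_nsmul _ _ e h2).trans ?_
      rw [nsmul_eq_mul]
      apply mul_le_mul_of_nonneg_right _ he0.le
      refine le_trans ?_ d3
      exact_mod_cast Finset.card_le_card (Finset.filter_subset _ _)
    have h4 : |∑ n ∈ (Bx V).filter (fun n => ¬ n + k ≤ b), f (h * Sr k n)| ≤ R * C := by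
      refine (Finset.abs_sum_le_sum_abs _ _).trans ?_
      refine (Finset.sum_le_card_nsmul _ _ C fun n _ => decay_le hC hf _).trans ?_
      rw [nsmul_eq_mul]
      apply mul_le_mul_of_nonneg_right _ hC
      have hsub : (Bx V).filter (fun n => ¬ n + k ≤ b) ⊆ Finset.Ioc (b - k) b := by
        intro n hn
        rw [Finset.mem_filter, hBx, Finset.mem_Icc] at hn
        rw [Finset.mem_Ioc]
        omega
      have h5 := Finset.card_le_card hsub
      rw [Nat.card_Ioc] at h5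
      have h6 : ((Bx V).filter (fun n => ¬ n + k ≤ b)).card ≤ R := by omega
      exact_mod_cast h6
    have e5 : ∑ n ∈ (Bx V).filter (fun n => n + k ≤ b), f (h * Sr k n) +
        ∑ n ∈ (Bx V).filter (fun n => ¬ n + k ≤ b), f (h * Sr k n) -
        ∑ n ∈ (Bx V).filter (fun n => n + k ≤ b), PP f h V n (n + k) =
        (∑ n ∈ (Bx V).filter (fun n => n + k ≤ b), f (h * Sr k n) -
        ∑ n ∈ (Bx V).filter (fun n => n + k ≤ b), PP f h V n (n + k)) +
        ∑ n ∈ (Bx V).filter (fun n => ¬ n + k ≤ b), f (h * Sr k n) := by ring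
    rw [e5]
    exact (abs_add_le _ _).trans (add_le_add h1 h4)
  have e6 : ∑ n ∈ Bx V, f 0 + 2 * ∑ k ∈ Finset.Icc 1 R, ∑ n ∈ Bx V, f (h * Sr k n) -
      (∑ n ∈ Bx V, f 0 + 2 * ∑ k ∈ Finset.Icc 1 R,
      ∑ n ∈ (Bx V).filter (fun n => n + k ≤ b), PP f h V n (n + k)) =
      2 * ∑ k ∈ Finset.Icc 1 R, (∑ n ∈ Bx V, f (h * Sr k n) -
      ∑ n ∈ (Bx V).filter (fun n => n + k ≤ b), PP f h V n (n + k)) := by
    rw [Finset.sum_sub_distrib]
    ring
  rw [e6, abs_mul, abs_two]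
  have h7 : |∑ k ∈ Finset.Icc 1 R, (∑ n ∈ Bx V, f (h * Sr k n) -
      ∑ n ∈ (Bx V).filter (fun n => n + k ≤ b), PP f h V n (n + k))| ≤
      R * (2 * X * e + R * C) := by
    refine (Finset.abs_sum_le_sum_abs _ _).trans ?_
    refine (Finset.sum_le_card_nsmul _ _ _ hdiff).trans (le_of_eq ?_)
    rw [nsmul_eq_mul, Nat.card_Icc, Nat.add_sub_cancel]
  have h8 : 8 * (R : ℝ) * R * C ≤ ε * X := by
    rw [div_le_iff₀ hε] at d2
    linarith
  have h9 : 2 * (R * (2 * X * e)) ≤ ε / 2 * X := by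
    have : (R : ℝ) * e ≤ ε / 8 := by
      rw [he, mul_div_assoc', div_le_div_iff₀ (by positivity) (by norm_num)]
      nlinarith
    nlinarith
  calc 2 * |∑ k ∈ Finset.Icc 1 R, (∑ n ∈ Bx V, f (h * Sr k n) -
      ∑ n ∈ (Bx V).filter (fun n => n + k ≤ b), PP f h V n (n + k))| ≤
      2 * (R * (2 * X * e + R * C)) := mul_le_mul_of_nonneg_left h7 (by norm_num)
    _ = 2 * (R * (2 * X * e)) + 8 * (R : ℝ) * R * C / 4 := by ring
    _ ≤ ε / 2 * X + ε * X / 4 := by linarith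
    _ ≤ ε * X := by nlinarith [mul_nonneg hε.le hX0]

end Pool.Agent.H666.LRC
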