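import Pool.Agent.H666.LRC.Defs3

/-! Fourth round of statements: the sharp cutoff. -/

open Filter Topology MeasureTheory

namespace Pool.Agent.H666.LRC

/-- U6: the law for the sharp cutoff, by monotone approximation. -/
def S_sharp : Prop := ∀ P : ℕ → ℝ → ℝ, (∀ N, Continuous (P N)) → (∀ N θ, 0 ≤ P N θ) →
  (∀ G : ℝ → ℝ, ContDiff ℝ 2 G → G 1 = 0 → ∃ K : ℝ, 0 ≤ K ∧ ∀ h : ℝ, 0 < h → h ≤ 1 / 2 →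
    ∀ᶠ N : ℕ in atTop, |∫ θ in (0 : ℝ)..h, G (θ / h) * (P N θ - θ)| ≤
      K * (h ^ 3 * Real.log (1 / h) ^ 3)) →
  ∀ ε : ℝ, 0 < ε → ∃ h0 : ℝ, 0 < h0 ∧ ∀ h : ℝ, 0 < h → h < h0 → ∀ᶠ N : ℕ in atTop,
    |(∫ θ in (0 : ℝ)..h, P N θ) - h ^ 2 / 2| ≤ ε * h ^ 2

end Pool.Agent.H666.LRC
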