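import Pool.Agent.H666.LRC.Defs3

/-! Sixth round of statements: the spectral law with an arbitrary shift. -/

open Filter Topology MeasureTheory

namespace Pool.Agent.H666.LRC

/-- U1 without restriction on the shift. -/
def S_logsum3 : Prop := ∀ p : ℕ, ∃ K : ℝ, 0 ≤ K ∧ ∀ h ρ : ℝ, 0 < h → h ≤ 1 / 2 → 0 ≤ ρ → ∀ R : ℕ,
  ∑ k ∈ Finset.Icc 1 R, Real.log (k + 1) ^ p / (1 + (h * k - ρ) ^ 2) ≤
    K * Real.log ((ρ + 2) / h) ^ p / h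

/-- U2 without restriction on the shift. -/
def S_near3 : Prop := S_ctdecay → S_stdecay → S_deriv → S_taylor → S_poisson → S_logsum3 → S_shift →
  ∀ a : ℕ → ℝ, Mom a → ∀ G : ℝ → ℝ, Adm G → ∃ K : ℝ, 0 ≤ K ∧ ∀ h ρ : ℝ, 0 < h → h ≤ 1 / 2 →
    0 ≤ ρ → h * Real.log ((ρ + 2) / h) ≤ 1 →
    ∃ R0 : ℕ, ∀ R : ℕ, R0 ≤ R → ∀ᶠ N : ℕ in atTop,
    |∑ n ∈ Finset.Icc 1 N, (ct (gr G ρ) 0 +
        2 * ∑ k ∈ Finset.Icc 1 R, ct (gr G ρ) (h * (k + Y a k n))) -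
      (gr G ρ 0 / h - h ^ 2 * ∑ k ∈ Finset.Icc 1 R, ct (mu 2 (gr G ρ)) (h * k) * Vr a N k) * N| ≤
      K * (h ^ 2 * Real.log ((ρ + 2) / h) ^ 3) * N

/-- U3 without restriction on the shift. -/
def S_cov3 : Prop := S_ctdecay → S_stdecay → S_deriv → S_taylor → S_logsum3 → S_shift → S_abel →
  ∀ a : ℕ → ℝ, Mom a →
  (∀ m : ℕ, Tendsto (fun N : ℕ => Vr a N m -
      (m * cv a N 0 + 2 * ∑ k ∈ Finset.Ico 1 m, ((m : ℝ) - k) * cv a N k)) atTop (𝓝 0)) →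
  ∀ G : ℝ → ℝ, Adm G → ∃ K : ℝ, 0 ≤ K ∧ ∀ h ρ : ℝ, 0 < h → h ≤ 1 / 2 → 0 ≤ ρ →
    ∃ R0 : ℕ, ∀ R : ℕ, R0 ≤ R → ∀ᶠ N : ℕ in atTop,
    |ct (gr G ρ) 0 * cv a N 0 + 2 * ∑ k ∈ Finset.Icc 1 R, ct (gr G ρ) (h * k) * cv a N k +
      h ^ 2 * ∑ k ∈ Finset.Icc 1 R, ct (mu 2 (gr G ρ)) (h * k) * Vr a N k| ≤
      K * (h ^ 2 * Real.log ((ρ + 2) / h) ^ 3)

end Pool.Agent.H666.LRC
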