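import Pool.Agent.H666.LRC.All5

/-! Dyson's law on short averages with an explicit error term. -/

open Filter Topology Set MeasureTheory

namespace Pool.Agent.H666.LRC

open P389 (ct_neg sum_abs_le sum_tail)

/-- the sum of `|F ((k - m) / H)| + |F ((k + m) / H)|` -/
lemma sum_both {F : ℝ → ℝ} {C : ℝ} (hC : 0 ≤ C) (hF : ∀ x, |F x| ≤ C / (1 + |x|) ^ 2)
    {K : ℝ} (hK : ∀ h ρ : ℝ, 0 < h → h ≤ 1 / 2 → 0 ≤ ρ → ∀ R : ℕ,
      ∑ k ∈ Finset.Icc 1 R, Real.log (k + 1) ^ 0 / (1 + (h * k - ρ) ^ 2) ≤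
        K * Real.log ((ρ + 2) / h) ^ 0 / h) {m H : ℝ} (hm : 0 ≤ m) (hH : 2 ≤ H) (N : ℕ) :
    ∑ k ∈ Finset.Icc 1 N, (|F ((k - m) / H)| + |F ((k + m) / H)|) ≤ 2 * C * K * H := by
  have hH0 : 0 < H := by linarith
  have h1 := hK (1 / H) (m / H) (by positivity) (one_div_le_one_div_of_le (by norm_num) hH)
    (by positivity) N
  simp only [pow_zero, mul_one] at h1
  have h2 : ∀ k ∈ Finset.Icc 1 N, |F ((k - m) / H)| + |F ((k + m) / H)| ≤
      2 * C * (1 / (1 + (1 / H * k - m / H) ^ 2)) := by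
    intro k hk
    have hk0 : (0 : ℝ) ≤ k := Nat.cast_nonneg k
    have e1 : 1 / H * (k : ℝ) - m / H = (k - m) / H := by ring
    rw [e1]
    have e2 : |F ((k - m) / H)| ≤ C * (1 / (1 + ((k - m) / H) ^ 2)) := by
      refine (hF _).trans ?_
      rw [mul_one_div]
      refine div_le_div_of_nonneg_left hC (by positivity) ?_
      nlinarith [abs_nonneg (((k : ℝ) - m) / H), sq_abs (((k : ℝ) - m) / H)]
    have e3 : |F ((k + m) / H)| ≤ C * (1 / (1 + ((k - m) / H) ^ 2)) := by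
      refine (hF _).trans ?_
      rw [mul_one_div]
      refine div_le_div_of_nonneg_left hC (by positivity) ?_
      have e4 : ((k - m) / H) ^ 2 ≤ ((k + m) / H) ^ 2 := by
        rw [div_pow, div_pow]
        apply div_le_div_of_nonneg_right _ (by positivity)
        nlinarith
      nlinarith [abs_nonneg (((k : ℝ) + m) / H), sq_abs (((k : ℝ) + m) / H)]
    linarith
  refine (Finset.sum_le_sum h2).trans ?_
  rw [← Finset.mul_sum]
  have e5 : K / (1 / H) = K * H := by rw [div_div_eq_mul_div, div_one]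
  rw [e5] at h1
  calc 2 * C * _ ≤ 2 * C * (K * H) := mul_le_mul_of_nonneg_left h1 (by positivity)
    _ = _ := by ring

/-- **Dyson's law on short averages, with an error term** -/
theorem dyson3 (hRH : RiemannHypothesis) {G : ℝ → ℝ} (hG : Sm G) {b : ℕ → ℝ} (hb : Close b) :
    ∃ K : ℝ, 0 ≤ K ∧ ∀ m H : ℝ, 2 ≤ H → H ≤ m → ∀ᶠ N : ℕ in atTop,
      |1 / H * (ct G (m / H) * cv b N 0 +
        ∑ k ∈ Finset.Icc 1 N, (ct G ((k - m) / H) + ct G ((k + m) / H)) * cv b N k) +
        G 0 / (2 * Real.pi ^ 2 * m ^ 2)| ≤ K * (Real.log m ^ 3 / H ^ 3 + H ^ 2 / m ^ 4) := by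
  obtain ⟨K, hK, hcov⟩ := cov_law3 allT allU hRH (sm_adm hG) hb
  obtain ⟨-, K00, hK00, hsq⟩ := close_sq hRH hb
  obtain ⟨hU0, hU1, hU2, hU3, hD1, hD2, hD3, hU4, hU5⟩ := allU
  obtain ⟨K0, hK0, hcb⟩ : ∃ K0 : ℝ, 0 ≤ K0 ∧ ∀ᶠ N : ℕ in atTop, ∀ k : ℕ, k ≤ N → |cv b N k| ≤ K0 :=
    ⟨2 * K00, by positivity, hU5 b K00 hK00 hsq⟩
  obtain ⟨C1, hC1, hmt⟩ := hD2 G hG
  obtain ⟨C2, hC2, hF2⟩ := hD1 G hG 2
  obtain ⟨K6, hK6, hlog0⟩ := PU1x.U1 0
  refine ⟨27 * K + 2 * C1 + 1 + 27 * (C2 * K0 + 2 * C2 * K6 * K0 + |G 0|), by positivity,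
    fun m H hH2 hHm => ?_⟩
  have hH0 : 0 < H := by linarith
  have hm0 : 0 < m := by linarith
  have hm2 : 2 ≤ m := by linarith
  have hpi := Real.pi_gt_three
  have hlm : 0 < Real.log m := Real.log_pos (by linarith)
  have hF0 : ∀ x, |ct G x| ≤ C2 := by
    intro x
    refine (hF2 x).trans (div_le_self hC2 ?_)
    nlinarith [abs_nonneg x]
  obtain ⟨L, hL⟩ : ∃ L, L = Real.log (m + 2 * H) := ⟨_, rfl⟩
  have hL1 : L ≤ 3 * Real.log m := by
    have h1 : L ≤ Real.log (m ^ 3) := by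
      rw [hL]
      apply Real.log_le_log (by linarith)
      nlinarith [sq_nonneg (m - 2)]
    rwa [Real.log_pow] at h1
  have hL0 : 0 < L := by
    rw [hL]
    exact Real.log_pos (by linarith)
  have hL3 : L ^ 3 ≤ 27 * Real.log m ^ 3 := by
    calc L ^ 3 ≤ (3 * Real.log m) ^ 3 := pow_le_pow_left₀ hL0.le hL1 3
      _ = _ := by ring
  set E1 : ℝ := Real.log m ^ 3 / H ^ 3 with hE1
  set E2 : ℝ := H ^ 2 / m ^ 4 with hE2
  have hE10 : 0 < E1 := by positivity
  have hE20 : 0 < E2 := by positivity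
  have eL : (m / H + 2) / (1 / H) = m + 2 * H := by field_simp
  by_cases hc : 1 / H * Real.log ((m / H + 2) / (1 / H)) ≤ 1
  · -- the main case
    have hρ1 : 1 ≤ m / H := by
      rw [le_div_iff₀ hH0]
      linarith
    obtain ⟨R0, hR0⟩ := hcov (1 / H) (m / H) (by positivity)
      (one_div_le_one_div_of_le (by norm_num) hH2) (by positivity) hc
    obtain ⟨R1, hR1⟩ := exists_nat_ge (1 / H * (K0 * (8 * C2 * H ^ 2)) / E1)
    obtain ⟨R2, hR2⟩ := exists_nat_ge (2 * m)
    set R : ℕ := max (max R0 R2) (max R1 1) with hRdef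
    have hRR0 : R0 ≤ R := (le_max_left _ _).trans (le_max_left _ _)
    have hRR2 : R2 ≤ R := (le_max_right _ _).trans (le_max_left _ _)
    have hRR1 : R1 ≤ R := (le_max_left _ _).trans (le_max_right _ _)
    have hR1' : 1 ≤ R := (le_max_right _ _).trans (le_max_right _ _)
    have hRpos : (0 : ℝ) < R := by exact_mod_cast hR1'
    have hR2m : 2 * m ≤ R := hR2.trans (by exact_mod_cast hRR2)
    filter_upwards [hR0 R hRR0, hcb, eventually_ge_atTop R] with N hN1 hN2 hN3
    have hmt1 := hmt (m / H) hρ1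
    set I := ∫ t in (0 : ℝ)..1, t * (G t * Real.cos (2 * Real.pi * (m / H) * t)) with hI
    have hcovN : |2 * ct G (m / H) * cv b N 0 +
        2 * ∑ k ∈ Finset.Icc 1 R, (ct G ((k - m) / H) + ct G ((k + m) / H)) * cv b N k
        - 4 * (1 / H) * I| ≤ K * ((1 / H) ^ 2 * L ^ 3) := by
      rw [eL, ← hL] at hN1
      refine le_trans (le_of_eq ?_) hN1
      congr 1
      rw [int_gr, ← hI, hU0 G hG.1.continuous, zero_sub, zero_add, ct_neg]
      have : ∑ k ∈ Finset.Icc 1 R, ct (gr G (m / H)) (1 / H * k) * cv b N k =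
          ∑ k ∈ Finset.Icc 1 R, (ct G ((k - m) / H) + ct G ((k + m) / H)) * cv b N k := by
        refine Finset.sum_congr rfl (fun k _ => ?_)
        rw [hU0 G hG.1.continuous]
        rw [show 1 / H * (k : ℝ) - m / H = (k - m) / H by ring,
          show 1 / H * (k : ℝ) + m / H = (k + m) / H by ring]
      rw [this]
      ring
    have hsplit : ∑ k ∈ Finset.Icc 1 N, (ct G ((k - m) / H) + ct G ((k + m) / H)) * cv b N k =
        ∑ k ∈ Finset.Icc 1 R, (ct G ((k - m) / H) + ct G ((k + m) / H)) * cv b N k +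
        ∑ k ∈ Finset.Ioc R N, (ct G ((k - m) / H) + ct G ((k + m) / H)) * cv b N k := by
      have e1 : Finset.Icc 1 N = Finset.Ioc 0 N := by
        ext k; simp only [Finset.mem_Icc, Finset.mem_Ioc]; omega
      have e2 : Finset.Icc 1 R = Finset.Ioc 0 R := by
        ext k; simp only [Finset.mem_Icc, Finset.mem_Ioc]; omega
      rw [e1, e2, Finset.sum_Ioc_consecutive _ (Nat.zero_le R) hN3]
    have htail : |∑ k ∈ Finset.Ioc R N, (ct G ((k - m) / H) + ct G ((k + m) / H)) * cv b N k| ≤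
        K0 * (8 * C2 * H ^ 2 / R) := by
      refine (sum_abs_le (fun k : ℕ => ct G ((k - m) / H) + ct G ((k + m) / H)) (cv b N) K0 _
        (fun k hk => hN2 k (Finset.mem_Ioc.1 hk).2)).trans ?_
      apply mul_le_mul_of_nonneg_left _ hK0
      have s1 := sum_tail (ct G) C2 hC2 hF2 m H hm0 hH0 R N hR2m hN3
      have s2 : ∑ k ∈ Finset.Ioc R N, |ct G ((k + m) / H)| ≤ 4 * C2 * H ^ 2 / R := by
        have key : ∀ k ∈ Finset.Ioc R N, |ct G ((k + m) / H)| ≤ 4 * C2 * H ^ 2 * ((k : ℝ) ^ 2)⁻¹ := by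
          intro k hk
          have hk1 : (R : ℝ) < k := by exact_mod_cast (Finset.mem_Ioc.1 hk).1
          have hk0 : (0 : ℝ) < k := by linarith
          refine (hF2 _).trans ?_
          have hx : (k : ℝ) / (2 * H) ≤ |((k : ℝ) + m) / H| := by
            refine le_trans ?_ (le_abs_self _)
            rw [div_le_div_iff₀ (by positivity) hH0]
            nlinarith
          have e1 : (k / (2 * H)) ^ 2 ≤ (1 + |((k : ℝ) + m) / H|) ^ 2 :=
            pow_le_pow_left₀ (by positivity) (by linarith) 2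
          calc C2 / (1 + |((k : ℝ) + m) / H|) ^ 2 ≤ C2 / (k / (2 * H)) ^ 2 :=
                div_le_div_of_nonneg_left hC2 (by positivity) e1
            _ = 4 * C2 * H ^ 2 * ((k : ℝ) ^ 2)⁻¹ := by
                field_simp
                ring
        refine (Finset.sum_le_sum key).trans ?_
        rw [← Finset.mul_sum]
        have h2 := sum_Ioc_inv_sq_le_sub (α := ℝ) (k := R) (n := N) (by omega) hN3
        have h3 : (0 : ℝ) ≤ (N : ℝ)⁻¹ := by positivity
        rw [div_eq_mul_inv]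
        exact mul_le_mul_of_nonneg_left (by linarith) (by positivity)
      have s3 : ∑ k ∈ Finset.Ioc R N, |ct G ((k - m) / H) + ct G ((k + m) / H)| ≤
          ∑ k ∈ Finset.Ioc R N, |ct G ((k - m) / H)| + ∑ k ∈ Finset.Ioc R N, |ct G ((k + m) / H)| := by
        rw [← Finset.sum_add_distrib]
        exact Finset.sum_le_sum fun k _ => abs_add_le _ _
      have s4 : 8 * C2 * H ^ 2 / R = 4 * C2 * H ^ 2 / R + 4 * C2 * H ^ 2 / R := by ring
      rw [s4]
      linarith
    rw [hsplit]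
    set S1 := ∑ k ∈ Finset.Icc 1 R, (ct G ((k - m) / H) + ct G ((k + m) / H)) * cv b N k
    set S2 := ∑ k ∈ Finset.Ioc R N, (ct G ((k - m) / H) + ct G ((k + m) / H)) * cv b N k
    set X := 2 * ct G (m / H) * cv b N 0 + 2 * S1 - 4 * (1 / H) * I with hX
    set Y := I + G 0 / (2 * Real.pi * (m / H)) ^ 2 with hY
    have hid : 1 / H * (ct G (m / H) * cv b N 0 + (S1 + S2)) + G 0 / (2 * Real.pi ^ 2 * m ^ 2) =
        X / (2 * H) + (2 / H ^ 2) * Y + (1 / H) * S2 := by
      rw [hX, hY]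
      field_simp
      ring
    rw [hid]
    have t1 : |X / (2 * H)| ≤ 27 * K * E1 := by
      rw [abs_div, abs_of_pos (by positivity : (0 : ℝ) < 2 * H), div_le_iff₀ (by positivity)]
      refine hcovN.trans ?_
      have : K * ((1 / H) ^ 2 * L ^ 3) ≤ K * ((1 / H) ^ 2 * (27 * Real.log m ^ 3)) := by gcongr
      refine this.trans ?_
      have e : 27 * K * E1 * (2 * H) = 2 * (K * ((1 / H) ^ 2 * (27 * Real.log m ^ 3))) := by
        rw [hE1]
        field_simp
      rw [e]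
      have : 0 ≤ K * ((1 / H) ^ 2 * (27 * Real.log m ^ 3)) := by positivity
      linarith
    have t2 : |(2 / H ^ 2) * Y| ≤ 2 * C1 * E2 := by
      rw [abs_mul, abs_of_pos (by positivity : (0 : ℝ) < 2 / H ^ 2)]
      refine (mul_le_mul_of_nonneg_left hmt1 (by positivity)).trans (le_of_eq ?_)
      rw [hE2]
      field_simp
    have t3 : |(1 / H) * S2| ≤ 1 * E1 := by
      rw [abs_mul, abs_of_pos (by positivity : (0 : ℝ) < 1 / H), one_mul]
      refine (mul_le_mul_of_nonneg_left htail (by positivity)).trans ?_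
      have h2 : 1 / H * (K0 * (8 * C2 * H ^ 2)) / E1 ≤ R := hR1.trans (by exact_mod_cast hRR1)
      rw [div_le_iff₀ hE10] at h2
      rw [show 1 / H * (K0 * (8 * C2 * H ^ 2 / (R : ℝ))) =
        1 / H * (K0 * (8 * C2 * H ^ 2)) / R by ring, div_le_iff₀ hRpos]
      linarith
    refine (abs_add_three _ _ _).trans ?_
    have q1 : 0 ≤ (27 * (C2 * K0 + 2 * C2 * K6 * K0 + |G 0|)) * (E1 + E2) := by positivity
    have q2 : 0 ≤ (27 * K + 1) * E2 := by positivity
    have q3 : 0 ≤ 2 * C1 * E1 := by positivity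
    nlinarith
  · -- trivial case
    push Not at hc
    rw [eL, ← hL] at hc
    have hLH : H < L := by
      have : 1 / H * L * H = L := by field_simp
      nlinarith
    have hbig : 1 ≤ 27 * E1 := by
      rw [hE1, ← mul_div_assoc, le_div_iff₀ (by positivity), one_mul]
      exact (pow_le_pow_left₀ hH0.le hLH.le 3).trans hL3
    filter_upwards [hcb] with N hN2
    have hs : |∑ k ∈ Finset.Icc 1 N, (ct G ((k - m) / H) + ct G ((k + m) / H)) * cv b N k| ≤
        K0 * (2 * C2 * K6 * H) := by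
      refine (sum_abs_le (fun k : ℕ => ct G ((k - m) / H) + ct G ((k + m) / H)) (cv b N) K0 _
        (fun k hk => hN2 k (Finset.mem_Icc.1 hk).2)).trans ?_
      apply mul_le_mul_of_nonneg_left _ hK0
      refine le_trans (Finset.sum_le_sum fun k _ => abs_add_le _ _) ?_
      exact sum_both hC2 hF2 hlog0 hm0.le hH2 N
    have h0 : |ct G (m / H) * cv b N 0| ≤ C2 * K0 := by
      rw [abs_mul]
      exact mul_le_mul (hF0 _) (hN2 0 (Nat.zero_le _)) (abs_nonneg _) hC2
    have h1 : |1 / H * (ct G (m / H) * cv b N 0 +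
        ∑ k ∈ Finset.Icc 1 N, (ct G ((k - m) / H) + ct G ((k + m) / H)) * cv b N k)| ≤
        C2 * K0 + 2 * C2 * K6 * K0 := by
      rw [abs_mul, abs_of_pos (by positivity : (0 : ℝ) < 1 / H), one_div, inv_mul_le_iff₀ hH0]
      refine (abs_add_le _ _).trans ?_
      have : 0 ≤ C2 * K0 := by positivity
      nlinarith
    have h2 : |G 0 / (2 * Real.pi ^ 2 * m ^ 2)| ≤ |G 0| := by
      rw [abs_div, abs_of_pos (by positivity : (0 : ℝ) < 2 * Real.pi ^ 2 * m ^ 2)]
      apply div_le_self (abs_nonneg _)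
      have a1 : 1 ≤ 2 * Real.pi ^ 2 := by nlinarith
      have a2 : 1 ≤ m ^ 2 := by nlinarith
      calc (1 : ℝ) = 1 * 1 := by norm_num
        _ ≤ 2 * Real.pi ^ 2 * m ^ 2 := mul_le_mul a1 a2 zero_le_one (by positivity)
    refine (abs_add_le _ _).trans ?_
    have q1 : 0 ≤ (27 * K + 2 * C1 + 1) * (E1 + E2) := by positivity
    have q2 : 0 ≤ C2 * K0 + 2 * C2 * K6 * K0 + |G 0| := by positivity
    have q3 := mul_le_mul_of_nonneg_left hbig q2
    have q4 : 0 ≤ 27 * (C2 * K0 + 2 * C2 * K6 * K0 + |G 0|) * E2 := by positivity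
    nlinarith

/-- the same with a sum over the integers -/
lemma sum_int (F : ℝ → ℝ) (hF : ∀ x, F (-x) = F x) (c : ℕ → ℝ) (m H : ℝ) (N : ℕ) :
    ∑ k ∈ Finset.Icc (-(N : ℤ)) N, F ((k - m) / H) * c k.natAbs =
      F (m / H) * c 0 + ∑ k ∈ Finset.Icc 1 N, (F ((k - m) / H) + F ((k + m) / H)) * c k := by
  induction N with
  | zero =>
    simp only [Nat.cast_zero, neg_zero, Finset.Icc_self, Finset.sum_singleton, Int.cast_zero,
      zero_sub, Int.natAbs_zero]
    rw [neg_div, hF]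
    simp
  | succ N ih =>
    rw [Finset.sum_Icc_succ_top (by omega), ← add_assoc, ← ih]
    have e : Finset.Icc (-((N + 1 : ℕ) : ℤ)) ((N + 1 : ℕ) : ℤ) =
        insert (-((N + 1 : ℕ) : ℤ)) (insert ((N + 1 : ℕ) : ℤ) (Finset.Icc (-(N : ℤ)) N)) := by
      ext k
      simp only [Finset.mem_Icc, Finset.mem_insert]
      push_cast
      omega
    rw [e, Finset.sum_insert, Finset.sum_insert]
    · rw [Int.natAbs_neg, Int.natAbs_natCast]
      have e2 : F ((((-((N + 1 : ℕ) : ℤ)) : ℤ) - m) / H) = F ((((N + 1 : ℕ) : ℝ) + m) / H) := by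
        rw [← hF]
        congr 1
        push_cast
        ring
      rw [e2]
      push_cast
      ring
    · simp only [Finset.mem_Icc]
      push_cast
      omega
    · simp only [Finset.mem_insert, Finset.mem_Icc]
      push_cast
      omega

end Pool.Agent.H666.LRC
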