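import Pool.Agent.H666.LRC.Blk

/-! From averages to blocks; the pairs far from the diagonal. -/

open Filter Topology Set MeasureTheory

namespace Pool.Agent.H666.LRC

open SG (ord NZ)
open Pool.Agent.TH873.EW (XV)
open Pool.Agent.Y747 (Bx mem_Bx)
open Pool.Agent.H707.SM (Bx_eq XV_large)
open Pool.Agent.H666.ZG (Sr ag)

lemma GR_eq (g : ℝ → ℝ) (h : ℝ) (R n : ℕ) : GR (ct g) h R n =
    ct g 0 + 2 * ∑ k ∈ Finset.Icc 1 R, ct g (h * (k + Y ag k n)) := by
  unfold GR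
  congr 2
  apply Finset.sum_congr rfl
  intro k _
  rw [Y_ag]
  congr 2
  ring

lemma mu_adm {g : ℝ → ℝ} (hg : Adm g) : Adm (mu 2 g) := by
  constructor
  · unfold mu
    apply ContDiff.mul _ hg.1
    exact (contDiff_const.mul contDiff_id).pow 2
  · unfold mu
    rw [hg.2, mul_zero]

lemma Vr_nonneg (a : ℕ → ℝ) (N k : ℕ) : 0 ≤ Vr a N k := by
  unfold Vr
  have : 0 ≤ ∑ n ∈ Finset.Icc 1 N, (∑ i ∈ Finset.range k, a (n + i)) ^ 2 :=
    Finset.sum_nonneg fun _ _ => sq_nonneg _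
  positivity

lemma Vr_le {a : ℕ → ℝ} (ha : Mom a) : ∃ K : ℝ, 0 ≤ K ∧ ∀ k : ℕ, 1 ≤ k → ∀ᶠ N : ℕ in atTop,
    Vr a N k ≤ K * Real.log (k + 1) ^ 2 := by
  obtain ⟨K, hK, h⟩ := ha.2 2
  refine ⟨K, hK, fun k hk => ?_⟩
  filter_upwards [h k hk, eventually_gt_atTop 0] with N h1 h2
  have hN : (0 : ℝ) < N := by exact_mod_cast h2
  unfold Vr
  rw [one_div, inv_mul_eq_div, div_le_iff₀ hN]
  refine le_trans (le_of_eq ?_) h1
  apply Finset.sum_congr rfl
  intro n _
  unfold Y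
  rw [sq_abs]

/-- the averages of the near part, to leading order -/
theorem near_two (hT1 : S_ctdecay) (hT2 : S_stdecay) (hT3 : S_deriv) (hT4 : S_taylor)
    (hT5 : S_poisson) (hT6 : S_logsum) (hT9 : S_near) (hM : Mom ag) {g : ℝ → ℝ} (hg : Adm g) :
    ∃ K : ℝ, 0 ≤ K ∧ ∀ h : ℝ, 0 < h → h ≤ 1 / 2 → ∃ R0 : ℕ, ∀ R : ℕ, R0 ≤ R →
      ∀ᶠ N : ℕ in atTop, |∑ n ∈ Finset.Icc 1 N, GR (ct g) h R n - g 0 / h * N| ≤
        K * (h * Real.log (1 / h) ^ 3) * N := by
  obtain ⟨K1, hK1, h1⟩ := hT9 hT1 hT2 hT3 hT4 hT5 hT6 ag hM g hg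
  obtain ⟨C, hC, h2⟩ := hT1 (mu 2 g) (mu_adm hg).1 (mu_adm hg).2
  obtain ⟨K2, hK2, h3⟩ := Vr_le hM
  obtain ⟨K3, hK3, h4⟩ := hT6 2
  have hlog2 : 0 < Real.log 2 := Real.log_pos (by norm_num)
  refine ⟨K1 + C * K2 * K3 / Real.log 2, by positivity, fun h hh hh2 => ?_⟩
  obtain ⟨R0, hR0⟩ := h1 h hh hh2
  refine ⟨R0, fun R hR => ?_⟩
  have hall : ∀ᶠ N : ℕ in atTop, ∀ k ∈ Finset.Icc 1 R, Vr ag N k ≤ K2 * Real.log (k + 1) ^ 2 := by
    rw [Filter.eventually_all_finset]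
    intro k hk
    exact h3 k (Finset.mem_Icc.1 hk).1
  filter_upwards [hR0 R hR, hall] with N a1 a2
  have hN0 : (0 : ℝ) ≤ N := Nat.cast_nonneg N
  simp only [GR_eq]
  set D := h ^ 2 * ∑ k ∈ Finset.Icc 1 R, ct (mu 2 g) (h * k) * Vr ag N k with hD
  have hl : Real.log 2 ≤ Real.log (1 / h) := by
    apply Real.log_le_log (by norm_num)
    rw [le_div_iff₀ hh]
    linarith
  set l := Real.log (1 / h) with hl'
  have hl0 : 0 < l := hlog2.trans_le hl
  have hDle : |D| ≤ C * K2 * K3 / Real.log 2 * (h * l ^ 3) := by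
    have h5 : |∑ k ∈ Finset.Icc 1 R, ct (mu 2 g) (h * k) * Vr ag N k| ≤
        C * K2 * ∑ k ∈ Finset.Icc 1 R, Real.log (k + 1) ^ 2 / (1 + (h * k) ^ 2) := by
      refine (Finset.abs_sum_le_sum_abs _ _).trans ?_
      rw [Finset.mul_sum]
      apply Finset.sum_le_sum
      intro k hk
      rw [abs_mul, abs_of_nonneg (Vr_nonneg _ _ _)]
      calc |ct (mu 2 g) (h * k)| * Vr ag N k ≤
          C / (1 + (h * k) ^ 2) * (K2 * Real.log (k + 1) ^ 2) :=
            mul_le_mul (h2 _) (a2 k hk) (Vr_nonneg _ _ _) (by positivity)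
        _ = _ := by ring
    have h6 := h4 h hh hh2 R
    rw [hD, abs_mul, abs_of_nonneg (sq_nonneg h)]
    calc h ^ 2 * |∑ k ∈ Finset.Icc 1 R, ct (mu 2 g) (h * k) * Vr ag N k| ≤
        h ^ 2 * (C * K2 * (K3 * l ^ 2 / h)) := by
          apply mul_le_mul_of_nonneg_left _ (sq_nonneg h)
          refine h5.trans ?_
          exact mul_le_mul_of_nonneg_left h6 (by positivity)
      _ = C * K2 * K3 * (h * l ^ 2) := by
          field_simp
      _ ≤ C * K2 * K3 * (h * l ^ 2 * (l / Real.log 2)) := by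
          apply mul_le_mul_of_nonneg_left _ (by positivity)
          apply le_mul_of_one_le_right (by positivity)
          rw [le_div_iff₀ hlog2]
          linarith
      _ = _ := by ring
  have e1 : ∑ n ∈ Finset.Icc 1 N, (ct g 0 + 2 * ∑ k ∈ Finset.Icc 1 R, ct g (h * (k + Y ag k n))) -
      g 0 / h * N =
      (∑ n ∈ Finset.Icc 1 N, (ct g 0 + 2 * ∑ k ∈ Finset.Icc 1 R, ct g (h * (k + Y ag k n))) -
      (g 0 / h - D) * N) - D * N := by ring
  rw [e1]
  refine (abs_sub _ _).trans ?_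
  have h7 : |D * N| ≤ C * K2 * K3 / Real.log 2 * (h * l ^ 3) * N := by
    rw [abs_mul, abs_of_nonneg hN0]
    exact mul_le_mul_of_nonneg_right hDle hN0
  have h8 : K1 * (h ^ 2 * l ^ 3) * N ≤ K1 * (h * l ^ 3) * N := by
    apply mul_le_mul_of_nonneg_right _ hN0
    apply mul_le_mul_of_nonneg_left _ hK1
    apply mul_le_mul_of_nonneg_right _ (by positivity)
    nlinarith
  calc _ ≤ K1 * (h ^ 2 * l ^ 3) * N + C * K2 * K3 / Real.log 2 * (h * l ^ 3) * N :=
        add_le_add a1 h7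
    _ ≤ K1 * (h * l ^ 3) * N + C * K2 * K3 / Real.log 2 * (h * l ^ 3) * N := by linarith
    _ = _ := by ring

/-- the sizes of the blocks -/
lemma blk_size (hRH : RiemannHypothesis) : ∃ V0 : ℝ, 10 ≤ V0 ∧ ∀ V : ℝ, V0 ≤ V →
    ((Bx V).card : ℝ) ≤ 2 * XV V ∧ (NZ (V + 1) : ℝ) ≤ 2 * XV V := by
  obtain ⟨V1, hV1, hp⟩ := Pool.Agent.Y747.blk_pair hRH (adm_gF.1.of_le (by norm_num)) adm_gF.2
    (μ := 1 / 2) (by norm_num) (by norm_num) (ε := 1) one_pos
  obtain ⟨T0, hT0, hn⟩ := Pool.Agent.Y747.NZ_upper hRH (1 / 4) (by norm_num)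
  refine ⟨max V1 (max T0 100), hV1.trans (le_max_left _ _), fun V hV => ?_⟩
  have c1 : V1 ≤ V := (le_max_left _ _).trans hV
  have c2 : T0 ≤ V := ((le_max_left _ _).trans (le_max_right _ _)).trans hV
  have c3 : 100 ≤ V := ((le_max_right _ _).trans (le_max_right _ _)).trans hV
  constructor
  · have := (abs_le.1 (hp V c1).1).2
    linarith
  · have h1 := hn (V + 1) (by linarith)
    refine h1.trans ?_
    unfold Pool.Agent.TH873.EW.XV
    have hpi := Real.pi_pos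
    have hlog : 4 ≤ Real.log V := by
      rw [Real.le_log_iff_exp_le (by linarith)]
      have h2 : Real.exp 4 = Real.exp 1 ^ 4 := by
        rw [← Real.exp_nat_mul]
        norm_num
      have h3 := Real.exp_one_lt_d9
      have h4 : Real.exp 1 ^ 4 ≤ 2.7182818286 ^ 4 :=
        pow_le_pow_left₀ (Real.exp_pos _).le h3.le 4
      rw [h2]
      refine h4.trans ?_
      norm_num
      linarith
    have hlog1 : Real.log (V + 1) ≤ Real.log V + 1 / V := by
      have h2 : Real.log (V + 1) = Real.log V + Real.log ((V + 1) / V) := by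
        rw [← Real.log_mul (by linarith) (by positivity)]
        congr 1
        field_simp
      have h3 := Real.log_le_sub_one_of_pos (show 0 < (V + 1) / V by positivity)
      have h4 : (V + 1) / V - 1 = 1 / V := by field_simp; ring
      linarith
    have hlog2 : Real.log (V + 1) ≤ Real.log V * (101 / 100) := by
      have : 1 / V ≤ 1 / 100 := one_div_le_one_div_of_le (by norm_num) c3
      linarith
    rw [mul_div_assoc', mul_div_assoc']
    apply div_le_div_of_nonneg_right _ (by positivity)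
    have h5 : (V + 1) * Real.log (V + 1) ≤ (V + 1) * (Real.log V * (101 / 100)) :=
      mul_le_mul_of_nonneg_left hlog2 (by linarith)
    have h6 : (1 + 1 / 4) * ((V + 1) * (Real.log V * (101 / 100))) ≤
        2 * ((V - 2) * Real.log V) := by
      have : (1 + 1 / 4) * ((V + 1) * (101 / 100)) ≤ 2 * (V - 2) := by linarith
      nlinarith
    linarith

/-- from averages to blocks -/
theorem blk_avg (hRH : RiemannHypothesis) {G : ℕ → ℝ} {A b : ℝ} (hb : 0 ≤ b)
    (h : ∀ᶠ N : ℕ in atTop, |∑ n ∈ Finset.Icc 1 N, G n - A * N| ≤ b * N) :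
    ∃ V0 : ℝ, ∀ V : ℝ, V0 ≤ V → |∑ n ∈ Bx V, G n - A * (Bx V).card| ≤ 6 * b * XV V := by
  obtain ⟨N0, hN0⟩ := h.exists_forall_of_atTop
  obtain ⟨V1, hV1, hs⟩ := blk_size hRH
  refine ⟨max V1 (ord (N0 + 1)), fun V hV => ?_⟩
  have c1 : V1 ≤ V := (le_max_left _ _).trans hV
  have c2 : ord (N0 + 1) ≤ V := (le_max_right _ _).trans hV
  obtain ⟨s1, s2⟩ := hs V c1
  have hV10 : 10 ≤ V := hV1.trans c1
  set a := NZ (V + 1) with ha
  set c := NZ (2 * V - 1) with hc
  have hac : a ≤ c := SG.NZ_mono (by linarith)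
  have hNa : N0 ≤ a := by
    have : N0 + 1 ≤ NZ (V + 1) := (SG.ord_le_iff (by omega) _).1 (by linarith)
    omega
  have hBx : Bx V = Finset.Icc (a + 1) c := Bx_eq V
  have hcard : ((Bx V).card : ℝ) = (c : ℝ) - a := by
    rw [hBx, Nat.card_Icc, Nat.add_sub_add_right, Nat.cast_sub hac]
  have hsum : ∑ n ∈ Bx V, G n = ∑ n ∈ Finset.Icc 1 c, G n - ∑ n ∈ Finset.Icc 1 a, G n := by
    rw [hBx]
    have h1 : Finset.Icc (a + 1) c = Finset.Ico (a + 1) (c + 1) := by
      ext n; simp only [Finset.mem_Icc, Finset.mem_Ico]; omega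
    have h2 : Finset.Icc 1 c = Finset.Ico 1 (c + 1) := by
      ext n; simp only [Finset.mem_Icc, Finset.mem_Ico]; omega
    have h3 : Finset.Icc 1 a = Finset.Ico 1 (a + 1) := by
      ext n; simp only [Finset.mem_Icc, Finset.mem_Ico]; omega
    rw [h1, h2, h3, eq_sub_iff_add_eq, add_comm]
    exact Finset.sum_Ico_consecutive _ (by omega) (by omega)
  have h1 := hN0 c (hNa.trans hac)
  have h2 := hN0 a hNa
  have h3 : ∑ n ∈ Bx V, G n - A * (Bx V).card =
      (∑ n ∈ Finset.Icc 1 c, G n - A * c) - (∑ n ∈ Finset.Icc 1 a, G n - A * a) := by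
    rw [hsum, hcard]
    ring
  rw [h3]
  refine (abs_sub _ _).trans ?_
  have h4 : b * c + b * a ≤ 6 * b * XV V := by
    have : (c : ℝ) + a ≤ 6 * XV V := by
      rw [hcard] at s1
      linarith
    nlinarith
  linarith

end Pool.Agent.H666.LRC
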