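import Pool.Agent.H666.LRC.Far

/-! The pairs far from the diagonal, the blocks, the averages, and the theorem. -/

open Filter Topology Set MeasureTheory

namespace Pool.Agent.H666.LRC

open SG (ord NZ)
open Pool.Agent.TH873.EW (XV)
open Pool.Agent.Y747 (Bx mem_Bx)
open Pool.Agent.H707.SM (Bx_eq XV_large)
open Pool.Agent.H666.ZG (Sr ag)

/-- the statements of the subtasks -/
def AllT : Prop := S_ctdecay ∧ S_stdecay ∧ S_deriv ∧ S_taylor ∧ S_poisson ∧ S_logsum ∧ S_layer ∧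
  S_abel ∧ S_near ∧ S_kernel ∧ S_comb ∧ S_pt ∧ S_period ∧ S_fubini ∧ S_cov

lemma small_scale (c : ℝ) (_ : 0 ≤ c) (δ h : ℝ) (hδ : 0 < δ) (hh : 0 < h) :
    ∃ h' : ℝ, 0 < h' ∧ h' ≤ h ∧ h' ≤ 1 / 2 ∧ c * (h' + h' * Real.log (1 / h') ^ 3) ≤ δ := by
  have h1 : Tendsto (fun x : ℝ => Real.exp (-x)) atTop (𝓝 0) :=
    Real.tendsto_exp_neg_atTop_nhds_zero
  have h2 : Tendsto (fun x : ℝ => x ^ 3 * Real.exp (-x)) atTop (𝓝 0) :=
    Real.tendsto_pow_mul_exp_neg_atTop_nhds_zero 3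
  have h3 : Tendsto (fun x : ℝ => c * (Real.exp (-x) + x ^ 3 * Real.exp (-x))) atTop (𝓝 0) := by
    have := (h1.add h2).const_mul c
    simpa using this
  have e1 := h1.eventually_lt_const hh
  have e2 := h1.eventually_lt_const (show (0 : ℝ) < 1 / 2 by norm_num)
  have e3 := h3.eventually_lt_const hδ
  obtain ⟨x, hx1, hx2, hx3⟩ := (e1.and (e2.and e3)).exists
  refine ⟨Real.exp (-x), Real.exp_pos _, hx1.le, hx2.le, ?_⟩
  have e4 : Real.log (1 / Real.exp (-x)) = x := by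
    rw [one_div, ← Real.exp_neg, neg_neg, Real.log_exp]
  rw [e4, mul_comm (Real.exp (-x)) (x ^ 3)]
  exact hx3.le

/-- the total pair sum -/
noncomputable def totS (f : ℝ → ℝ) (h V : ℝ) : ℝ := ∑ n ∈ Bx V, ∑ m ∈ Bx V, PP f h V n m

lemma tot_blk (hRH : RiemannHypothesis) {g : ℝ → ℝ} (hg : Adm g) {h : ℝ} (hh : 0 < h)
    (hh1 : h ≤ 1 / 2) {ε : ℝ} (hε : 0 < ε) :
    ∃ V0 : ℝ, 10 ≤ V0 ∧ ∀ V : ℝ, V0 ≤ V → |((Bx V).card : ℝ) - XV V| ≤ ε * XV V ∧
      |totS (ct g) h V - XV V * (g 0 / h + 2 * h * ∫ t in (0 : ℝ)..1, t * g t)| ≤ ε * XV V :=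
  Pool.Agent.Y747.blk_pair hRH (hg.1.of_le (by norm_num)) hg.2 hh (by linarith) hε

/-- the far pairs -/
noncomputable def farS (f : ℝ → ℝ) (h V : ℝ) (R : ℕ) : ℝ :=
  ∑ n ∈ Bx V, ∑ m ∈ (Bx V).filter (fun m => ¬ (n ≤ m + R ∧ m ≤ n + R)), PP f h V n m

lemma tot_split (f : ℝ → ℝ) (h V : ℝ) (R : ℕ) : totS f h V = nearS f h V R + farS f h V R := by
  unfold totS nearS farS
  rw [← Finset.sum_add_distrib]
  apply Finset.sum_congr rfl
  intro n _
  rw [Finset.sum_filter_add_sum_filter_not]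

/-- **the far pairs** -/
theorem far_blk (hT : AllT) (hRH : RiemannHypothesis) {f : ℝ → ℝ} {C : ℝ} (hC : 0 ≤ C)
    (hf : ∀ x, |f x| ≤ C / (1 + x ^ 2)) {h : ℝ} (hh : 0 < h) {ε : ℝ} (hε : 0 < ε) :
    ∃ R0 : ℕ, ∀ R : ℕ, R0 ≤ R → ∃ V0 : ℝ, 10 ≤ V0 ∧ ∀ V : ℝ, V0 ≤ V →
      |farS f h V R| ≤ ε * XV V := by
  classical
  obtain ⟨hT1, hT2, hT3, hT4, hT5, hT6, hT7, hT8, hT9, hT10, hT11, hT12, -, -, -⟩ := hT
  have hpi := Real.pi_pos
  obtain ⟨K, hK, hnear⟩ := near_two hT1 hT2 hT3 hT4 hT5 hT6 hT9 (mom_ag hRH hT7) adm_gF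
  obtain ⟨CF, hCF, hF1, hF2⟩ := ct_props hT1 hT3 adm_gF
  set I : ℝ := ∫ t in (0 : ℝ)..1, t * gF t with hI
  obtain ⟨h', hh0, hhh, hh2, hsm⟩ := small_scale (C * Real.pi ^ 2 * (2 * |I| + 6 * K))
    (by positivity) (ε / 2) h (by positivity) hh
  set l := Real.log (1 / h') with hl
  have hl0 : 0 ≤ l := Real.log_nonneg (by rw [le_div_iff₀ hh0]; linarith)
  set e : ℝ := ε / (2 * (C * Real.pi ^ 2 + 1) * (2 + 2 / h')) with he
  have he0 : 0 < e := by positivity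
  obtain ⟨R0, hR0⟩ := hnear h' hh0 hh2
  refine ⟨R0, fun R hR => ?_⟩
  obtain ⟨V1, hV1, htot⟩ := tot_blk hRH adm_gF hh0 hh2 he0
  obtain ⟨V2, hV2⟩ := blk_avg hRH (b := K * (h' * l ^ 3)) (by positivity) (hR0 R hR)
  obtain ⟨V5, hV5, hsz⟩ := blk_size hRH
  obtain ⟨V3, hV3, hnb⟩ := near_blk hT11 hT12 hCF hF1 hF2 (ct_even gF) hh0 R he0
    ⟨V5, fun V hV => (hsz V hV).1⟩
  refine ⟨max V1 (max V2 V3), hV1.trans (le_max_left _ _), fun V hV => ?_⟩
  have c1 : V1 ≤ V := (le_max_left _ _).trans hV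
  have c2 : V2 ≤ V := ((le_max_left _ _).trans (le_max_right _ _)).trans hV
  have c3 : V3 ≤ V := ((le_max_right _ _).trans (le_max_right _ _)).trans hV
  obtain ⟨t1, t2⟩ := htot V c1
  have t3 := hV2 V c2
  have t4 := hnb V c3
  rw [gF_zero] at t2 t3
  set X := XV V with hX
  have hX0 : 0 ≤ X := by
    unfold Pool.Agent.TH873.EW.XV at hX
    have h10 : 10 ≤ V := hV1.trans c1
    have : 0 < Real.log V := Real.log_pos (by linarith)
    rw [hX]
    apply div_nonneg _ (by positivity)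
    exact mul_nonneg (by linarith) this.le
  -- far sum of the kernel
  have hfar : farS (ct gF) h' V R ≤ X * (2 * |I| * h' + 6 * K * (h' * l ^ 3) + e * (2 + 2 / h')) := by
    have s1 := tot_split (ct gF) h' V R
    have u1 := (abs_le.1 t2).2
    have u2 := (abs_le.1 t3).1
    have u3 := (abs_le.1 t4).2
    have u4 := (abs_le.1 t1).1
    have u5 : 2 / h' * ((1 - e) * X) ≤ 2 / h' * (Bx V).card :=
      mul_le_mul_of_nonneg_left (by linarith) (by positivity)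
    have u6 : X * (2 * h' * I) ≤ X * (2 * |I| * h') := by
      apply mul_le_mul_of_nonneg_left _ hX0
      have := mul_le_mul_of_nonneg_left (le_abs_self I) (show 0 ≤ 2 * h' by positivity)
      linarith
    have e1 : X * (2 / h' + 2 * h' * ∫ t in (0 : ℝ)..1, t * gF t) =
        X * (2 / h') + X * (2 * h' * I) := by rw [← hI]; ring
    rw [e1] at u1
    have e2 : 2 / h' * ((1 - e) * X) = X * (2 / h') - X * (e * (2 / h')) := by ring
    rw [e2] at u5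
    have e3 : X * (2 * |I| * h' + 6 * K * (h' * l ^ 3) + e * (2 + 2 / h')) =
        X * (2 * |I| * h') + 6 * (K * (h' * l ^ 3)) * X + 2 * (e * X) + X * (e * (2 / h')) := by ring
    rw [e3]
    linarith
  -- comparison
  have hcmp : |farS f h V R| ≤ C * Real.pi ^ 2 * farS (ct gF) h' V R := by
    unfold farS
    refine (Finset.abs_sum_le_sum_abs _ _).trans ?_
    rw [Finset.mul_sum]
    apply Finset.sum_le_sum
    intro n _
    refine (Finset.abs_sum_le_sum_abs _ _).trans ?_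
    rw [Finset.mul_sum]
    apply Finset.sum_le_sum
    intro m _
    unfold PP
    set d := ord n - ord m with hd
    rw [abs_mul, abs_of_pos (Real.exp_pos _)]
    have g1 := hf (h * Real.log V / (2 * Real.pi) * d)
    have g2 := hT10 (h' * Real.log V / (2 * Real.pi) * d)
    have g3 : (h' * Real.log V / (2 * Real.pi) * d) ^ 2 ≤
        (h * Real.log V / (2 * Real.pi) * d) ^ 2 := by
      have k1 : (h' * Real.log V / (2 * Real.pi) * d) ^ 2 =
          h' ^ 2 * (Real.log V / (2 * Real.pi) * d) ^ 2 := by ring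
      have k2 : (h * Real.log V / (2 * Real.pi) * d) ^ 2 =
          h ^ 2 * (Real.log V / (2 * Real.pi) * d) ^ 2 := by ring
      rw [k1, k2]
      exact mul_le_mul_of_nonneg_right (pow_le_pow_left₀ hh0.le hhh 2) (sq_nonneg _)
    have g4 : C / (1 + (h * Real.log V / (2 * Real.pi) * d) ^ 2) ≤
        C / (1 + (h' * Real.log V / (2 * Real.pi) * d) ^ 2) :=
      div_le_div_of_nonneg_left hC (by positivity) (by linarith)
    have g5 : C / (1 + (h' * Real.log V / (2 * Real.pi) * d) ^ 2) =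
        C * Real.pi ^ 2 * (1 / (Real.pi ^ 2 * (1 + (h' * Real.log V / (2 * Real.pi) * d) ^ 2))) := by
      field_simp
    have g6 := mul_le_mul_of_nonneg_left g2 (show 0 ≤ C * Real.pi ^ 2 by positivity)
    have g7 : |f (h * Real.log V / (2 * Real.pi) * d)| ≤
        C * Real.pi ^ 2 * ct gF (h' * Real.log V / (2 * Real.pi) * d) := by
      refine g1.trans (g4.trans ?_)
      rw [g5]
      exact g6
    calc Real.exp (-d ^ 2 / 4) * |f (h * Real.log V / (2 * Real.pi) * d)| ≤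
        Real.exp (-d ^ 2 / 4) * (C * Real.pi ^ 2 * ct gF (h' * Real.log V / (2 * Real.pi) * d)) :=
          mul_le_mul_of_nonneg_left g7 (Real.exp_pos _).le
      _ = _ := by ring
  refine hcmp.trans ?_
  have hCp : 0 ≤ C * Real.pi ^ 2 := by positivity
  calc C * Real.pi ^ 2 * farS (ct gF) h' V R ≤ C * Real.pi ^ 2 *
      (X * (2 * |I| * h' + 6 * K * (h' * l ^ 3) + e * (2 + 2 / h'))) :=
        mul_le_mul_of_nonneg_left hfar hCp
    _ = (C * Real.pi ^ 2 * (2 * |I| * h' + 6 * K * (h' * l ^ 3)) +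
        C * Real.pi ^ 2 * (e * (2 + 2 / h'))) * X := by ring
    _ ≤ (ε / 2 + ε / 2) * X := by
        apply mul_le_mul_of_nonneg_right _ hX0
        apply add_le_add
        · refine le_trans ?_ hsm
          have k1 : 0 ≤ |I| * (h' * l ^ 3) := by positivity
          have k2 : 0 ≤ K * h' := by positivity
          have k3 : 2 * |I| * h' + 6 * K * (h' * l ^ 3) ≤ (2 * |I| + 6 * K) * (h' + h' * l ^ 3) := by
            nlinarith
          have k4 := mul_le_mul_of_nonneg_left k3 hCp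
          refine k4.trans (le_of_eq ?_)
          ring
        · have k1 : e * (2 + 2 / h') * (2 * (C * Real.pi ^ 2 + 1)) = ε := by
            rw [he]
            field_simp
          have k2 : 0 ≤ e * (2 + 2 / h') := by positivity
          nlinarith
    _ = ε * X := by ring

/-- **the blocks** -/
theorem main_blk (hT : AllT) (hRH : RiemannHypothesis) {g : ℝ → ℝ} (hg : Adm g) {h : ℝ}
    (hh : 0 < h) (hh1 : h ≤ 1 / 2) {ε : ℝ} (hε : 0 < ε) :
    ∃ R0 : ℕ, ∀ R : ℕ, R0 ≤ R → ∃ V0 : ℝ, 10 ≤ V0 ∧ ∀ V : ℝ, V0 ≤ V →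
      |((Bx V).card : ℝ) - XV V| ≤ ε * XV V ∧
      |∑ n ∈ Bx V, GR (ct g) h R n -
        (g 0 / h + 2 * h * ∫ t in (0 : ℝ)..1, t * g t) * XV V| ≤ ε * XV V := by
  obtain ⟨C, hC, hF1, hF2⟩ := ct_props hT.1 hT.2.2.1 hg
  obtain ⟨R0, hR0⟩ := far_blk hT hRH hC hF1 hh (ε := ε / 3) (by positivity)
  obtain ⟨hT1, hT2, hT3, hT4, hT5, hT6, hT7, hT8, hT9, hT10, hT11, hT12, -, -, -⟩ := hT
  refine ⟨R0, fun R hR => ?_⟩
  obtain ⟨V1, hV1, hfar⟩ := hR0 R hR
  obtain ⟨V2, hV2, htot⟩ := tot_blk hRH hg hh hh1 (ε := ε / 3) (by positivity)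
  obtain ⟨V5, hV5, hsz⟩ := blk_size hRH
  obtain ⟨V3, hV3, hnb⟩ := near_blk hT11 hT12 hC hF1 hF2 (ct_even g) hh R (ε := ε / 3)
    (by positivity) ⟨V5, fun V hV => (hsz V hV).1⟩
  refine ⟨max V1 (max V2 V3), hV1.trans (le_max_left _ _), fun V hV => ?_⟩
  have c1 : V1 ≤ V := (le_max_left _ _).trans hV
  have c2 : V2 ≤ V := ((le_max_left _ _).trans (le_max_right _ _)).trans hV
  have c3 : V3 ≤ V := ((le_max_right _ _).trans (le_max_right _ _)).trans hV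
  have t1 := hfar V c1
  obtain ⟨t0, t2⟩ := htot V c2
  have t3 := hnb V c3
  have s1 := tot_split (ct g) h V R
  set X := XV V with hX
  have hX0 : 0 ≤ ε / 3 * X := (abs_nonneg _).trans t0
  constructor
  · have : ε / 3 * X ≤ ε * X := by nlinarith
    exact t0.trans this
  · rw [abs_le] at t1 t2 t3 ⊢
    obtain ⟨a1, a2⟩ := t1
    obtain ⟨b1, b2⟩ := t2
    obtain ⟨d1, d2⟩ := t3
    have e1 : X * (g 0 / h + 2 * h * ∫ t in (0 : ℝ)..1, t * g t) =
      (g 0 / h + 2 * h * ∫ t in (0 : ℝ)..1, t * g t) * X := mul_comm _ _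
    rw [e1] at b1 b2
    constructor <;> linarith

/-- **the averages** -/
theorem main_avg (hT : AllT) (hRH : RiemannHypothesis) {g : ℝ → ℝ} (hg : Adm g) {h : ℝ}
    (hh : 0 < h) (hh1 : h ≤ 1 / 2) {ε : ℝ} (hε : 0 < ε) :
    ∃ R0 : ℕ, ∀ R : ℕ, R0 ≤ R → ∀ᶠ N : ℕ in atTop,
      |∑ n ∈ Finset.Icc 1 N, GR (ct g) h R n -
        (g 0 / h + 2 * h * ∫ t in (0 : ℝ)..1, t * g t) * N| ≤ ε * N := by
  obtain ⟨C, hC, hF1, hF2⟩ := ct_props hT.1 hT.2.2.1 hg
  set A : ℝ := g 0 / h + 2 * h * ∫ t in (0 : ℝ)..1, t * g t with hA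
  obtain ⟨R0, hR0⟩ := main_blk hT hRH hg hh hh1 (ε := ε / 4) (by positivity)
  refine ⟨R0, fun R hR => ?_⟩
  obtain ⟨V1, hV1, hm⟩ := hR0 R hR
  set D : ℝ := C * (1 + 2 * R) with hD
  have hR1 : (0 : ℝ) ≤ R := Nat.cast_nonneg R
  have hD0 : 0 ≤ D := by positivity
  have hGD : ∀ n, |GR (ct g) h R n| ≤ D := fun n => GR_bdd (decay_le hC hF1) h R n
  obtain ⟨V2, hV2, hc⟩ := tot_blk hRH hg hh hh1 (ε := ε / (4 * (D + 1))) (by positivity)
  have hDe : D * (ε / (4 * (D + 1))) ≤ ε / 4 := by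
    rw [mul_div_assoc', div_le_div_iff₀ (by positivity) (by norm_num)]
    nlinarith
  have key : ∀ V : ℝ, max V1 V2 ≤ V → 0 ≤ XV V ∧ ∑ n ∈ Bx V, D ≤ (D + ε / 4) * XV V := by
    intro V hV
    have h10 : 10 ≤ V := (hV1.trans (le_max_left _ _)).trans hV
    have hX0 : 0 ≤ XV V := by
      unfold Pool.Agent.TH873.EW.XV
      have hpi := Real.pi_pos
      have : 0 < Real.log V := Real.log_pos (by linarith)
      apply div_nonneg _ (by positivity)
      exact mul_nonneg (by linarith) this.le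
    refine ⟨hX0, ?_⟩
    have h1 := (abs_le.1 (hc V ((le_max_right _ _).trans hV)).1).2
    rw [Finset.sum_const, nsmul_eq_mul]
    have h2 : ((Bx V).card : ℝ) * D ≤ ((1 + ε / (4 * (D + 1))) * XV V) * D :=
      mul_le_mul_of_nonneg_right (by linarith) hD0
    have h3 : D * (ε / (4 * (D + 1))) * XV V ≤ ε / 4 * XV V :=
      mul_le_mul_of_nonneg_right hDe hX0
    have h4 : ((1 + ε / (4 * (D + 1))) * XV V) * D = D * XV V + D * (ε / (4 * (D + 1))) * XV V := by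
      ring
    have h5 : (D + ε / 4) * XV V = D * XV V + ε / 4 * XV V := by ring
    linarith
  have up := Pool.Agent.Y747.average hRH (A + D + ε / 2) (2 * D) (fun n => GR (ct g) h R n + D)
    (fun n => by have := (abs_le.1 (hGD n)).1; linarith)
    (fun n => by have := (abs_le.1 (hGD n)).2; linarith) (by
      intro ε' hε'
      refine ⟨max V1 V2, hV1.trans (le_max_left _ _), fun V hV => ?_⟩
      obtain ⟨hX0, h1⟩ := key V hV
      have h2 := (abs_le.1 (hm V ((le_max_left _ _).trans hV)).2).2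
      rw [Finset.sum_add_distrib]
      have h3 : 0 ≤ ε' * XV V := mul_nonneg hε'.le hX0
      have h4 : (A + D + ε / 2 + ε') * XV V = A * XV V + ε / 4 * XV V + (D + ε / 4) * XV V +
        ε' * XV V := by ring
      linarith) (ε / 2) (by positivity)
  have lo := Pool.Agent.Y747.average hRH (D - A + ε / 2) (2 * D) (fun n => D - GR (ct g) h R n)
    (fun n => by have := (abs_le.1 (hGD n)).2; linarith)
    (fun n => by have := (abs_le.1 (hGD n)).1; linarith) (by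
      intro ε' hε'
      refine ⟨max V1 V2, hV1.trans (le_max_left _ _), fun V hV => ?_⟩
      obtain ⟨hX0, h1⟩ := key V hV
      have h2 := (abs_le.1 (hm V ((le_max_left _ _).trans hV)).2).1
      rw [Finset.sum_sub_distrib]
      have h3 : 0 ≤ ε' * XV V := mul_nonneg hε'.le hX0
      have h4 : (D - A + ε / 2 + ε') * XV V = -(A * XV V) + ε / 4 * XV V + (D + ε / 4) * XV V +
        ε' * XV V := by ring
      linarith) (ε / 2) (by positivity)
  filter_upwards [up, lo] with N h1 h2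
  rw [Finset.sum_add_distrib, Finset.sum_const, nsmul_eq_mul, Nat.card_Icc, Nat.add_sub_cancel] at h1
  rw [Finset.sum_sub_distrib, Finset.sum_const, nsmul_eq_mul, Nat.card_Icc, Nat.add_sub_cancel] at h2
  rw [abs_le]
  constructor <;> linarith

/-- **the covariances** -/
theorem cov_law (hT : AllT) (hRH : RiemannHypothesis) {g : ℝ → ℝ} (hg : Adm g) :
    ∃ K : ℝ, 0 ≤ K ∧ ∀ h : ℝ, 0 < h → h ≤ 1 / 2 → ∃ R0 : ℕ, ∀ R : ℕ, R0 ≤ R →
      ∀ᶠ N : ℕ in atTop,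
      |ct g 0 * cv ag N 0 + 2 * ∑ k ∈ Finset.Icc 1 R, ct g (h * k) * cv ag N k -
        2 * h * ∫ t in (0 : ℝ)..1, t * g t| ≤ K * (h ^ 2 * Real.log (1 / h) ^ 3) := by
  have havg := fun (h : ℝ) (hh : 0 < h) (hh1 : h ≤ 1 / 2) (ε : ℝ) (hε : 0 < ε) =>
    main_avg hT hRH hg hh hh1 hε
  obtain ⟨hT1, hT2, hT3, hT4, hT5, hT6, hT7, hT8, hT9, hT10, hT11, hT12, hT13, hT14, hT15⟩ := hT
  have hM := mom_ag hRH hT7
  obtain ⟨K1, hK1, h1⟩ := hT9 hT1 hT2 hT3 hT4 hT5 hT6 ag hM g hg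
  obtain ⟨K2, hK2, h2⟩ := hT15 hT1 hT2 hT3 hT4 hT6 hT8 ag hM
    (fun m => Pool.Agent.H666.ZG.expand (Pool.Agent.H666.ZG.ag_small hRH) m) g hg
  refine ⟨K1 + K2 + 1, by positivity, fun h hh hh1 => ?_⟩
  have hl : 0 < Real.log (1 / h) := by
    apply Real.log_pos
    rw [lt_div_iff₀ hh]
    linarith
  obtain ⟨R1, hR1⟩ := h1 h hh hh1
  obtain ⟨R2, hR2⟩ := h2 h hh hh1
  obtain ⟨R3, hR3⟩ := havg h hh hh1 (h ^ 2 * Real.log (1 / h) ^ 3) (by positivity)
  refine ⟨max R1 (max R2 R3), fun R hR => ?_⟩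
  have r1 : R1 ≤ R := (le_max_left _ _).trans hR
  have r2 : R2 ≤ R := ((le_max_left _ _).trans (le_max_right _ _)).trans hR
  have r3 : R3 ≤ R := ((le_max_right _ _).trans (le_max_right _ _)).trans hR
  filter_upwards [hR1 R r1, hR2 R r2, hR3 R r3, eventually_gt_atTop 0] with N a1 a2 a3 hN
  have hNpos : (0 : ℝ) < N := by exact_mod_cast hN
  simp only [GR_eq] at a3
  set S := ∑ n ∈ Finset.Icc 1 N, (ct g 0 + 2 * ∑ k ∈ Finset.Icc 1 R, ct g (h * (k + Y ag k n)))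
    with hS
  set W := h ^ 2 * ∑ k ∈ Finset.Icc 1 R, ct (mu 2 g) (h * k) * Vr ag N k with hW
  set Q := ct g 0 * cv ag N 0 + 2 * ∑ k ∈ Finset.Icc 1 R, ct g (h * k) * cv ag N k with hQ
  set J := 2 * h * ∫ t in (0 : ℝ)..1, t * g t with hJ
  set b := h ^ 2 * Real.log (1 / h) ^ 3 with hb
  have a4 : |J + W| ≤ (K1 + 1) * b := by
    have e1 : (J + W) * N = (S - (g 0 / h - W) * N) - (S - (g 0 / h + J) * N) := by ring
    have e2 : |(J + W) * N| ≤ (K1 + 1) * b * N := by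
      rw [e1]
      refine (abs_sub _ _).trans ?_
      linarith
    rw [abs_mul, abs_of_pos hNpos] at e2
    exact le_of_mul_le_mul_right e2 hNpos
  have e3 : Q - J = (Q + W) - (J + W) := by ring
  rw [e3]
  refine (abs_sub _ _).trans ?_
  have e4 : (K1 + K2 + 1) * b = K2 * b + (K1 + 1) * b := by ring
  rw [e4]
  exact add_le_add a2 a4

/-- **the power spectrum** -/
theorem spectrum (hT : AllT) (hRH : RiemannHypothesis) {g : ℝ → ℝ} (hg : Adm g) :
    ∃ K : ℝ, 0 ≤ K ∧ ∀ h : ℝ, 0 < h → h ≤ 1 / 2 → ∀ᶠ N : ℕ in atTop,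
      |(∫ t in (0 : ℝ)..1, g t * PS ag N (h * t)) - h * ∫ t in (0 : ℝ)..1, t * g t| ≤
        K * (h ^ 2 * Real.log (1 / h) ^ 3) := by
  obtain ⟨K, hK, hcov⟩ := cov_law hT hRH hg
  obtain ⟨C, hC, hF1, hF2⟩ := ct_props hT.1 hT.2.2.1 hg
  obtain ⟨hT1, hT2, hT3, hT4, hT5, hT6, hT7, hT8, hT9, hT10, hT11, hT12, hT13, hT14, hT15⟩ := hT
  obtain ⟨K0, hK0, hsq⟩ : ∃ K0 : ℝ, 0 ≤ K0 ∧
      ∀ᶠ N : ℕ in atTop, ∑ n ∈ Finset.Icc 1 N, ag n ^ 2 ≤ K0 * N := by
    obtain ⟨K2, hK2, h2⟩ := (mom_ag hRH hT7).2 2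
    refine ⟨K2 * Real.log ((1 : ℕ) + 1) ^ 2, by positivity, ?_⟩
    filter_upwards [h2 1 le_rfl] with N h3
    refine le_trans (le_of_eq ?_) h3
    apply Finset.sum_congr rfl
    intro n _
    unfold Y
    simp
  refine ⟨K + 1, by positivity, fun h hh hh1 => ?_⟩
  have hl : 0 < Real.log (1 / h) := by
    apply Real.log_pos
    rw [lt_div_iff₀ hh]
    linarith
  obtain ⟨R1, hR1⟩ := hcov h hh hh1
  obtain ⟨R2, hR2⟩ := hT13 ag K0 hK0 (Pool.Agent.H666.ZG.ag_small hRH) hsq (ct g) C hC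
    (ct_even g) hF1 h hh (h ^ 2 * Real.log (1 / h) ^ 3) (by positivity)
  filter_upwards [hR1 (max R1 R2) (le_max_left _ _), hR2 (max R1 R2) (le_max_right _ _),
    eventually_gt_atTop 0] with N a1 a2 hN
  rw [hT14 ag g hg.1.continuous h N hN]
  set Q := ct g 0 * cv ag N 0 + 2 * ∑ k ∈ Finset.Icc 1 (max R1 R2), ct g (h * k) * cv ag N k
  set I := ∫ t in (0 : ℝ)..1, t * g t
  set DS := ∑ n ∈ Finset.Icc 1 N, ∑ m ∈ Finset.Icc 1 N, ag n * ag m * ct g (h * ((n : ℝ) - m))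
  set b := h ^ 2 * Real.log (1 / h) ^ 3 with hb
  have hb0 : 0 ≤ b := by positivity
  have e1 : 1 / (2 * (N : ℝ)) * DS - h * I = ((1 / N * DS - Q) + (Q - 2 * h * I)) / 2 := by
    field_simp
    ring
  rw [e1, abs_div, abs_two, div_le_iff₀ (by norm_num)]
  refine (abs_add_le _ _).trans ?_
  nlinarith

end Pool.Agent.H666.LRC
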