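import Pool.Agent.H666.LRC.All2

/-! The theorems in their final form. -/

open Filter Topology Set MeasureTheory

namespace Pool.Agent.H666.LRC

lemma PS_cont (a : ℕ → ℝ) (N : ℕ) : Continuous (PS a N) := by
  unfold PS
  fun_prop

lemma PS_nonneg (a : ℕ → ℝ) (N : ℕ) (θ : ℝ) : 0 ≤ PS a N θ := by
  unfold PS
  positivity

/-- **the power spectrum near frequency zero** -/
theorem spectrum3 (hRH : RiemannHypothesis) {G : ℝ → ℝ} (hG : Adm G) {b : ℕ → ℝ} (hb : Close b) :
    ∃ K : ℝ, 0 ≤ K ∧ ∀ h m : ℝ, 0 < h → h ≤ 1 / 2 → 0 ≤ m → m * h ^ 2 ≤ 1 → ∀ᶠ N : ℕ in atTop,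
      |∫ θ in (0 : ℝ)..h, G (θ / h) * Real.cos (2 * Real.pi * m * θ) * (PS b N θ - θ)| ≤
        K * (h ^ 3 * Real.log (1 / h) ^ 3) := by
  obtain ⟨K, hK, hs⟩ := spectrum2 allT allU hRH hG hb
  refine ⟨K, hK, fun h m hh hh1 hm hm1 => ?_⟩
  have h1 := hs h (m * h) hh hh1 (by positivity) (by
    rw [le_div_iff₀ hh]
    linarith [show m * h * h = m * h ^ 2 by ring])
  filter_upwards [h1] with N h2
  have hGc := hG.1.continuous
  have hPc := PS_cont b N
  have e1 : ∫ θ in (0 : ℝ)..h, G (θ / h) * Real.cos (2 * Real.pi * m * θ) * (PS b N θ - θ) =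
      h * ∫ t in (0 : ℝ)..1, G t * Real.cos (2 * Real.pi * (m * h) * t) *
        (PS b N (h * t) - h * t) := by
    have e2 := intervalIntegral.smul_integral_comp_mul_left (a := (0 : ℝ)) (b := 1)
      (f := fun θ => G (θ / h) * Real.cos (2 * Real.pi * m * θ) * (PS b N θ - θ)) h
    rw [mul_zero, mul_one, smul_eq_mul] at e2
    rw [← e2]
    congr 1
    apply intervalIntegral.integral_congr
    intro t _
    simp only
    rw [mul_div_cancel_left₀ _ hh.ne']
    congr 3
    ring
  have e3 : ∫ t in (0 : ℝ)..1, G t * Real.cos (2 * Real.pi * (m * h) * t) *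
        (PS b N (h * t) - h * t) =
      (∫ t in (0 : ℝ)..1, G t * Real.cos (2 * Real.pi * (m * h) * t) * PS b N (h * t)) -
        h * ∫ t in (0 : ℝ)..1, t * (G t * Real.cos (2 * Real.pi * (m * h) * t)) := by
    rw [← intervalIntegral.integral_const_mul, ← intervalIntegral.integral_sub]
    · congr 1
      funext t
      ring
    · apply Continuous.intervalIntegrable
      fun_prop
    · apply Continuous.intervalIntegrable
      fun_prop
  rw [e1, e3, abs_mul, abs_of_pos hh]
  calc h * _ ≤ h * (K * (h ^ 2 * Real.log (1 / h) ^ 3)) := mul_le_mul_of_nonneg_left h2 hh.le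
    _ = _ := by ring

/-- the centred gaps are close to themselves -/
lemma close_ag : Close Pool.Agent.H666.ZG.ag := by
  intro e he
  refine ⟨0, fun n _ => ?_⟩
  rw [sub_self, abs_zero]
  positivity

end Pool.Agent.H666.LRC
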