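import Pool.Agent.H666.LRC.Main3
import Pool.Agent.H666.LRC.P.U1x
import Pool.Agent.H666.LRC.P.U2x
import Pool.Agent.H666.LRC.P.U3x

/-! The uniform version without restriction on the shift. -/

open Filter Topology Set MeasureTheory

namespace Pool.Agent.H666.LRC

open SG (ord NZ)
open Pool.Agent.H666.ZG (Sr ag)

/-- **the covariances, uniformly in the shift** -/
theorem cov_law3 (hT : AllT) (hU : AllU) (hRH : RiemannHypothesis) {G : ℝ → ℝ} (hG : Adm G)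
    {b : ℕ → ℝ} (hb : Close b) :
    ∃ K : ℝ, 0 ≤ K ∧ ∀ h ρ : ℝ, 0 < h → h ≤ 1 / 2 → 0 ≤ ρ → h * Real.log ((ρ + 2) / h) ≤ 1 →
      ∃ R0 : ℕ, ∀ R : ℕ, R0 ≤ R → ∀ᶠ N : ℕ in atTop,
      |ct (gr G ρ) 0 * cv b N 0 + 2 * ∑ k ∈ Finset.Icc 1 R, ct (gr G ρ) (h * k) * cv b N k -
        2 * h * ∫ t in (0 : ℝ)..1, t * gr G ρ t| ≤ K * (h ^ 2 * Real.log ((ρ + 2) / h) ^ 3) := by
  have hT0 := hT
  have havg := fun (h ρ : ℝ) (hh : 0 < h) (hh1 : h ≤ 1 / 2) (ε : ℝ) (hε : 0 < ε) =>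
    main_avg hT hRH (gr_adm hG ρ) hh hh1 hε
  obtain ⟨K0, hK0, hsq⟩ := sq_ag hT hRH
  obtain ⟨hT1, hT2, hT3, hT4, hT5, hT6, hT7, hT8, hT9, hT10, hT11, hT12, hT13, hT14, hT15⟩ := hT
  obtain ⟨hU0, hU1, hU2, hU3, hD1, hD2, hD3, hU4, hU5⟩ := hU
  have hM := mom_ag hRH hT7
  obtain ⟨-, -, htr⟩ := hU4 ag b K0 hK0 (Pool.Agent.H666.ZG.ag_small hRH) hsq hb
  obtain ⟨K1, hK1, h1⟩ := PU2x.U2 hT1 hT2 hT3 hT4 hT5 PU1x.U1 hU0 ag hM G hG
  obtain ⟨K2, hK2, h2⟩ := PU3x.U3 hT1 hT2 hT3 hT4 PU1x.U1 hU0 hT8 ag hM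
    (fun m => Pool.Agent.H666.ZG.expand (Pool.Agent.H666.ZG.ag_small hRH) m) G hG
  refine ⟨K1 + K2 + 2, by positivity, fun h ρ hh hh1 hρ hρ1 => ?_⟩
  have hl : 0 < Real.log ((ρ + 2) / h) := by
    apply Real.log_pos
    rw [lt_div_iff₀ hh]
    linarith
  set b3 := h ^ 2 * Real.log ((ρ + 2) / h) ^ 3 with hb3
  have hb30 : 0 < b3 := by positivity
  obtain ⟨R1, hR1⟩ := h1 h ρ hh hh1 hρ hρ1
  obtain ⟨R2, hR2⟩ := h2 h ρ hh hh1 hρ
  obtain ⟨R3, hR3⟩ := havg h ρ hh hh1 b3 (by positivity)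
  refine ⟨max R1 (max R2 R3), fun R hR => ?_⟩
  have r1 : R1 ≤ R := (le_max_left _ _).trans hR
  have r2 : R2 ≤ R := ((le_max_left _ _).trans (le_max_right _ _)).trans hR
  have r3 : R3 ≤ R := ((le_max_right _ _).trans (le_max_right _ _)).trans hR
  -- the change of the sequence
  have hchg : Tendsto (fun N : ℕ =>
      (ct (gr G ρ) 0 * cv ag N 0 + 2 * ∑ k ∈ Finset.Icc 1 R, ct (gr G ρ) (h * k) * cv ag N k) -
      (ct (gr G ρ) 0 * cv b N 0 + 2 * ∑ k ∈ Finset.Icc 1 R, ct (gr G ρ) (h * k) * cv b N k))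
      atTop (𝓝 0) := by
    have e1 : ∀ N : ℕ,
        (ct (gr G ρ) 0 * cv ag N 0 + 2 * ∑ k ∈ Finset.Icc 1 R, ct (gr G ρ) (h * k) * cv ag N k) -
        (ct (gr G ρ) 0 * cv b N 0 + 2 * ∑ k ∈ Finset.Icc 1 R, ct (gr G ρ) (h * k) * cv b N k) =
        ct (gr G ρ) 0 * (cv ag N 0 - cv b N 0) +
          2 * ∑ k ∈ Finset.Icc 1 R, ct (gr G ρ) (h * k) * (cv ag N k - cv b N k) := by
      intro N
      have : ∑ k ∈ Finset.Icc 1 R, ct (gr G ρ) (h * k) * (cv ag N k - cv b N k) =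
          ∑ k ∈ Finset.Icc 1 R, ct (gr G ρ) (h * k) * cv ag N k -
          ∑ k ∈ Finset.Icc 1 R, ct (gr G ρ) (h * k) * cv b N k := by
        rw [← Finset.sum_sub_distrib]
        apply Finset.sum_congr rfl
        intro k _
        ring
      rw [this]
      ring
    simp only [e1]
    have l1 := (htr 0).const_mul (ct (gr G ρ) 0)
    have l2 : Tendsto (fun N : ℕ => ∑ k ∈ Finset.Icc 1 R,
        ct (gr G ρ) (h * k) * (cv ag N k - cv b N k)) atTop (𝓝 (∑ k ∈ Finset.Icc 1 R, 0)) := by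
      apply tendsto_finsetSum
      intro k _
      have := (htr k).const_mul (ct (gr G ρ) (h * k))
      rwa [mul_zero] at this
    rw [Finset.sum_const_zero] at l2
    have := l1.add (l2.const_mul 2)
    simpa using this
  obtain ⟨N1, hN1⟩ := (Metric.tendsto_atTop.1 hchg) b3 hb30
  filter_upwards [hR1 R r1, hR2 R r2, hR3 R r3, eventually_gt_atTop 0,
    eventually_ge_atTop N1] with N a1 a2 a3 hN hN2
  have hNpos : (0 : ℝ) < N := by exact_mod_cast hN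
  have a5 := hN1 N hN2
  rw [Real.dist_eq, sub_zero] at a5
  simp only [GR_eq] at a3
  set S := ∑ n ∈ Finset.Icc 1 N, (ct (gr G ρ) 0 +
    2 * ∑ k ∈ Finset.Icc 1 R, ct (gr G ρ) (h * (k + Y ag k n))) with hS
  set W := h ^ 2 * ∑ k ∈ Finset.Icc 1 R, ct (mu 2 (gr G ρ)) (h * k) * Vr ag N k with hW
  set Q := ct (gr G ρ) 0 * cv ag N 0 + 2 * ∑ k ∈ Finset.Icc 1 R, ct (gr G ρ) (h * k) * cv ag N k
    with hQ
  set Q' := ct (gr G ρ) 0 * cv b N 0 + 2 * ∑ k ∈ Finset.Icc 1 R, ct (gr G ρ) (h * k) * cv b N k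
    with hQ'
  set J := 2 * h * ∫ t in (0 : ℝ)..1, t * gr G ρ t with hJ
  have a4 : |J + W| ≤ (K1 + 1) * b3 := by
    have e1 : (J + W) * N = (S - (gr G ρ 0 / h - W) * N) - (S - (gr G ρ 0 / h + J) * N) := by ring
    have e2 : |(J + W) * N| ≤ (K1 + 1) * b3 * N := by
      rw [e1]
      refine (abs_sub _ _).trans ?_
      linarith
    rw [abs_mul, abs_of_pos hNpos] at e2
    exact le_of_mul_le_mul_right e2 hNpos
  have e3 : Q' - J = ((Q + W) - (J + W)) - (Q - Q') := by ring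
  rw [e3]
  refine (abs_sub _ _).trans ?_
  have a6 := abs_sub (Q + W) (J + W)
  have e4 : (K1 + K2 + 2) * b3 = K2 * b3 + (K1 + 1) * b3 + b3 := by ring
  rw [e4]
  linarith

/-- **the power spectrum, uniformly in the shift** -/
theorem spectrum4 (hT : AllT) (hU : AllU) (hRH : RiemannHypothesis) {G : ℝ → ℝ} (hG : Adm G)
    {b : ℕ → ℝ} (hb : Close b) :
    ∃ K : ℝ, 0 ≤ K ∧ ∀ h ρ : ℝ, 0 < h → h ≤ 1 / 2 → 0 ≤ ρ → h * Real.log ((ρ + 2) / h) ≤ 1 → ∀ᶠ N : ℕ in atTop,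
      |(∫ t in (0 : ℝ)..1, G t * Real.cos (2 * Real.pi * ρ * t) * PS b N (h * t)) -
        h * ∫ t in (0 : ℝ)..1, t * (G t * Real.cos (2 * Real.pi * ρ * t))| ≤
        K * (h ^ 2 * Real.log ((ρ + 2) / h) ^ 3) := by
  obtain ⟨K, hK, hcov⟩ := cov_law3 hT hU hRH hG hb
  have hprops := fun (ρ : ℝ) => ct_props hT.1 hT.2.2.1 (gr_adm hG ρ)
  obtain ⟨K0, hK0, hsq⟩ := sq_ag hT hRH
  obtain ⟨hU0, hU1, hU2, hU3, hD1, hD2, hD3, hU4, hU5⟩ := hU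
  obtain ⟨hb1, hb2, -⟩ := hU4 ag b K0 hK0 (Pool.Agent.H666.ZG.ag_small hRH) hsq hb
  obtain ⟨hT1, hT2, hT3, hT4, hT5, hT6, hT7, hT8, hT9, hT10, hT11, hT12, hT13, hT14, hT15⟩ := hT
  refine ⟨K + 1, by positivity, fun h ρ hh hh1 hρ hρ1 => ?_⟩
  have hl : 0 < Real.log ((ρ + 2) / h) := by
    apply Real.log_pos
    rw [lt_div_iff₀ hh]
    linarith
  obtain ⟨C, hC, hF1, -⟩ := hprops ρ
  obtain ⟨R1, hR1⟩ := hcov h ρ hh hh1 hρ hρ1
  obtain ⟨R2, hR2⟩ := hT13 b (8 * K0 + 8) (by positivity) hb1 hb2 (ct (gr G ρ)) C hC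
    (ct_even _) hF1 h hh (h ^ 2 * Real.log ((ρ + 2) / h) ^ 3) (by positivity)
  filter_upwards [hR1 (max R1 R2) (le_max_left _ _), hR2 (max R1 R2) (le_max_right _ _),
    eventually_gt_atTop 0] with N a1 a2 hN
  have hNpos : (0 : ℝ) < N := by exact_mod_cast hN
  have e0 : ∫ t in (0 : ℝ)..1, G t * Real.cos (2 * Real.pi * ρ * t) * PS b N (h * t) =
      1 / 2 * ∫ t in (0 : ℝ)..1, gr G ρ t * PS b N (h * t) := by
    rw [← intervalIntegral.integral_const_mul]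
    congr 1
    funext t
    unfold gr
    ring
  rw [e0, hT14 b (gr G ρ) (gr_adm hG ρ).1.continuous h N hN]
  have e5 := int_gr G ρ
  set Q := ct (gr G ρ) 0 * cv b N 0 +
    2 * ∑ k ∈ Finset.Icc 1 (max R1 R2), ct (gr G ρ) (h * k) * cv b N k
  set I := ∫ t in (0 : ℝ)..1, t * (G t * Real.cos (2 * Real.pi * ρ * t))
  rw [e5] at a1
  set DS := ∑ n ∈ Finset.Icc 1 N, ∑ m ∈ Finset.Icc 1 N,
    b n * b m * ct (gr G ρ) (h * ((n : ℝ) - m))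
  set b3 := h ^ 2 * Real.log ((ρ + 2) / h) ^ 3 with hb3
  have hb0 : 0 ≤ b3 := by positivity
  have e1 : 1 / 2 * (1 / (2 * (N : ℝ)) * DS) - h * I =
      ((1 / N * DS - Q) + (Q - 2 * h * (2 * I))) / 4 := by
    field_simp
    ring
  rw [e1, abs_div, abs_of_pos (by norm_num : (0 : ℝ) < 4), div_le_iff₀ (by norm_num)]
  refine (abs_add_le _ _).trans ?_
  nlinarith

end Pool.Agent.H666.LRC
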