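import Pool.Agent.H666.LRC.Main4
import Pool.Agent.H666.LRC.Defs5

/-! The power spectrum with arbitrary shifts, and the variance of the sums of `m` gaps. -/

open Filter Topology Set MeasureTheory

namespace Pool.Agent.H666.LRC

/-- **the power spectrum near frequency zero, any shift** -/
theorem spectrum5 (hRH : RiemannHypothesis) {G : ℝ → ℝ} (hG : Adm G) {b : ℕ → ℝ} (hb : Close b) :
    ∃ K : ℝ, 0 ≤ K ∧ ∀ h m : ℝ, 0 < h → h ≤ 1 / 2 → 0 ≤ m → h * Real.log (m + 2 / h) ≤ 1 →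
      ∀ᶠ N : ℕ in atTop,
      |∫ θ in (0 : ℝ)..h, G (θ / h) * Real.cos (2 * Real.pi * m * θ) * (PS b N θ - θ)| ≤
        K * (h ^ 3 * Real.log (m + 2 / h) ^ 3) := by
  obtain ⟨K, hK, hs⟩ := spectrum4 allT allU hRH hG hb
  refine ⟨K, hK, fun h m hh hh1 hm hm1 => ?_⟩
  have e0 : (m * h + 2) / h = m + 2 / h := by field_simp
  have h1 := hs h (m * h) hh hh1 (by positivity) (by rw [e0]; exact hm1)
  rw [e0] at h1
  filter_upwards [h1] with N h2
  have hGc := hG.1.continuous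
  have hPc := PS_cont b N
  have e1 : ∫ θ in (0 : ℝ)..h, G (θ / h) * Real.cos (2 * Real.pi * m * θ) * (PS b N θ - θ) =
      h * ∫ t in (0 : ℝ)..1, G t * Real.cos (2 * Real.pi * (m * h) * t) *
        (PS b N (h * t) - h * t) := by
    have e2 := intervalIntegral.smul_integral_comp_mul_left (a := (0 : ℝ)) (b := 1)
      (f := fun θ => G (θ / h) * Real.cos (2 * Real.pi * m * θ) * (PS b N θ - θ)) h
    rw [mul_zero, mul_one, smul_eq_mul] at e2
    rw [← e2]
    congr 1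
    apply intervalIntegral.integral_congr
    intro t _
    simp only
    rw [mul_div_cancel_left₀ _ hh.ne']
    congr 3
    ring
  have e3 : ∫ t in (0 : ℝ)..1, G t * Real.cos (2 * Real.pi * (m * h) * t) *
        (PS b N (h * t) - h * t) =
      (∫ t in (0 : ℝ)..1, G t * Real.cos (2 * Real.pi * (m * h) * t) * PS b N (h * t)) -
        h * ∫ t in (0 : ℝ)..1, t * (G t * Real.cos (2 * Real.pi * (m * h) * t)) := by
    rw [← intervalIntegral.integral_const_mul, ← intervalIntegral.integral_sub]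
    · congr 1
      funext t
      ring
    · apply Continuous.intervalIntegrable
      fun_prop
    · apply Continuous.intervalIntegrable
      fun_prop
  rw [e1, e3, abs_mul, abs_of_pos hh]
  calc h * _ ≤ h * (K * (h ^ 2 * Real.log (m + 2 / h) ^ 3)) := mul_le_mul_of_nonneg_left h2 hh.le
    _ = _ := by ring

/-- squares of a sequence close to the centred gaps -/
lemma close_sq (hRH : RiemannHypothesis) {b : ℕ → ℝ} (hb : Close b) :
    Tendsto (fun n : ℕ => b n ^ 2 / n) atTop (𝓝 0) ∧ ∃ K0 : ℝ, 0 ≤ K0 ∧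
      ∀ᶠ N : ℕ in atTop, ∑ n ∈ Finset.Icc 1 N, b n ^ 2 ≤ K0 * N := by
  obtain ⟨K0, hK0, hsq⟩ := sq_ag allT hRH
  obtain ⟨hU0, hU1, hU2, hU3, hD1, hD2, hD3, hU4, hU5⟩ := allU
  obtain ⟨hb1, hb2, -⟩ := hU4 Pool.Agent.H666.ZG.ag b K0 hK0 (Pool.Agent.H666.ZG.ag_small hRH) hsq hb
  exact ⟨hb1, 8 * K0 + 8, by positivity, hb2⟩

/-- the total mass is bounded -/
lemma mass_bdd (hV8 : S_total) (hRH : RiemannHypothesis) {b : ℕ → ℝ} (hb : Close b) :
    ∃ K : ℝ, 0 ≤ K ∧ ∀ᶠ N : ℕ in atTop, ∫ θ in (0 : ℝ)..(1 / 2), PS b N θ ≤ K := by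
  obtain ⟨-, K0, hK0, h⟩ := close_sq hRH hb
  refine ⟨K0, hK0, ?_⟩
  filter_upwards [h, eventually_ge_atTop 1] with N h1 hN
  have hN0 : (0 : ℝ) < N := by exact_mod_cast hN
  rw [hV8 b N hN, div_mul_eq_mul_div, one_mul, div_le_iff₀ (by positivity)]
  nlinarith

lemma specHyp (hV8 : S_total) (hRH : RiemannHypothesis) {b : ℕ → ℝ} (hb : Close b) :
    SpecHyp (PS b) :=
  ⟨PS_cont b, PS_nonneg b, fun _ hG hG1 => spectrum5 hRH ⟨hG, hG1⟩ hb, mass_bdd hV8 hRH hb⟩

/-- **the power spectrum near frequency zero, any scale and any shift** -/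
theorem spectrum6 (hV8 : S_total) (hRH : RiemannHypothesis) {G : ℝ → ℝ} (hG : Adm G) {b : ℕ → ℝ}
    (hb : Close b) :
    ∃ K : ℝ, 0 ≤ K ∧ ∀ h m : ℝ, 0 < h → h ≤ 1 / 2 → 0 ≤ m → ∀ᶠ N : ℕ in atTop,
      |∫ θ in (0 : ℝ)..h, G (θ / h) * Real.cos (2 * Real.pi * m * θ) * (PS b N θ - θ)| ≤
        K * (h ^ 3 * Real.log (m + 2 / h) ^ 3) := by
  obtain ⟨K, hK, hs⟩ := spectrum5 hRH hG hb
  obtain ⟨KB, hKB, hB⟩ := mass_bdd hV8 hRH hb
  have hGc := hG.1.continuous
  obtain ⟨M, hM⟩ := isCompact_Icc.exists_bound_of_continuousOn (s := Icc (0 : ℝ) 1) hGc.continuousOn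
  have hM0 : 0 ≤ M := le_trans (norm_nonneg _) (hM 0 ⟨le_rfl, zero_le_one⟩)
  refine ⟨K + M * (KB + 1), by positivity, fun h m hh hh1 hm => ?_⟩
  have hl : 0 < Real.log (m + 2 / h) := by
    apply Real.log_pos
    have : 2 ≤ 2 / h := by
      rw [le_div_iff₀ hh]
      linarith
    linarith
  have hb3 : 0 ≤ h ^ 3 * Real.log (m + 2 / h) ^ 3 := by positivity
  by_cases hc : h * Real.log (m + 2 / h) ≤ 1
  · filter_upwards [hs h m hh hh1 hm hc] with N h1
    refine h1.trans ?_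
    apply mul_le_mul_of_nonneg_right _ hb3
    have : 0 ≤ M * (KB + 1) := by positivity
    linarith
  · push Not at hc
    filter_upwards [hB] with N h1
    have hPc := PS_cont b N
    have hb4 : 1 ≤ h ^ 3 * Real.log (m + 2 / h) ^ 3 := by
      rw [← mul_pow]
      exact one_le_pow₀ hc.le
    have h2 : |∫ θ in (0 : ℝ)..h, G (θ / h) * Real.cos (2 * Real.pi * m * θ) * (PS b N θ - θ)| ≤
        ∫ θ in (0 : ℝ)..h, M * (PS b N θ + 1) := by
      rw [← Real.norm_eq_abs]
      apply intervalIntegral.norm_integral_le_of_norm_le hh.le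
      · refine Filter.Eventually.of_forall fun θ hθ => ?_
        have hθ1 : θ / h ∈ Icc (0 : ℝ) 1 :=
          ⟨div_nonneg hθ.1.le hh.le, by rw [div_le_one hh]; exact hθ.2⟩
        have h3 := hM _ hθ1
        have h4 : ‖Real.cos (2 * Real.pi * m * θ)‖ ≤ 1 := by
          rw [Real.norm_eq_abs]
          exact Real.abs_cos_le_one _
        have h5 : ‖PS b N θ - θ‖ ≤ PS b N θ + 1 := by
          rw [Real.norm_eq_abs, abs_le]
          have h6 := PS_nonneg b N θ
          have h7 := hθ.1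
          have h8 := hθ.2
          constructor <;> linarith
        rw [norm_mul, norm_mul]
        calc ‖G (θ / h)‖ * ‖Real.cos (2 * Real.pi * m * θ)‖ * ‖PS b N θ - θ‖ ≤
            M * 1 * (PS b N θ + 1) := by gcongr
          _ = _ := by ring
      · apply Continuous.intervalIntegrable
        fun_prop
    have h3 : ∫ θ in (0 : ℝ)..h, M * (PS b N θ + 1) ≤ M * (KB + 1) := by
      rw [intervalIntegral.integral_const_mul]
      apply mul_le_mul_of_nonneg_left _ hM0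
      rw [intervalIntegral.integral_add (hPc.intervalIntegrable _ _) (by simp)]
      have h4 : ∫ θ in (0 : ℝ)..h, PS b N θ ≤ ∫ θ in (0 : ℝ)..(1 / 2), PS b N θ := by
        apply intervalIntegral.integral_mono_interval le_rfl hh.le hh1
        · exact Filter.Eventually.of_forall fun θ => PS_nonneg b N θ
        · exact hPc.intervalIntegrable _ _
      rw [intervalIntegral.integral_const, smul_eq_mul, mul_one, sub_zero]
      linarith
    refine (h2.trans h3).trans ?_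
    have : 0 ≤ M * (KB + 1) := by positivity
    nlinarith

/-- **the variance of the sums of `m` gaps** -/
theorem var_loglog (hV1 : S_mass) (hV2 : S_high) (hV3 : S_middle) (hV4 : S_mainlog) (hV5 : S_kern)
    (hV6 : S_varlog) (hV7 : S_fejer) (hV8 : S_total) (hRH : RiemannHypothesis) {b : ℕ → ℝ}
    (hb : Close b) : ∃ K : ℝ, ∀ m : ℕ, 16 ≤ m → ∀ᶠ N : ℕ in atTop,
      |Vr b N m - 1 / Real.pi ^ 2 * Real.log m| ≤ K * Real.log (Real.log m) := by
  obtain ⟨hb1, K0, hK0, hb2⟩ := close_sq hRH hb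
  obtain ⟨K, hK, h⟩ := hV6 hV1 hV2 hV3 hV4 hV5 (PS b) (specHyp hV8 hRH hb)
  refine ⟨K + 1, fun m hm => ?_⟩
  have h1 := hV7 b K0 hK0 hb1 hb2 (fun m => Pool.Agent.H666.ZG.expand hb1 m) m (by omega)
  have hw : 1 ≤ Real.log (Real.log (m : ℝ)) := by
    have hm16 : (16 : ℝ) ≤ m := by exact_mod_cast hm
    have hlog16 : (2.77 : ℝ) ≤ Real.log 16 := by
      rw [show (16 : ℝ) = 2 ^ 4 by norm_num, Real.log_pow]
      have := Real.log_two_gt_d9
      push_cast
      linarith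
    have hl : 2.77 ≤ Real.log (m : ℝ) := hlog16.trans (Real.log_le_log (by norm_num) hm16)
    rw [Real.le_log_iff_exp_le (by linarith)]
    have := Real.exp_one_lt_d9
    linarith
  obtain ⟨N1, hN1⟩ := (Metric.tendsto_atTop.1 h1) 1 one_pos
  filter_upwards [h m hm, eventually_ge_atTop N1] with N h2 h3
  have h4 := hN1 N h3
  rw [Real.dist_eq, sub_zero] at h4
  have e : Vr b N m - 1 / Real.pi ^ 2 * Real.log m =
      (Vr b N m - 2 * ∫ θ in (0 : ℝ)..(1 / 2), Fj m θ * PS b N θ) +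
      (2 * (∫ θ in (0 : ℝ)..(1 / 2), Fj m θ * PS b N θ) - 1 / Real.pi ^ 2 * Real.log m) := by ring
  rw [e]
  refine (abs_add_le _ _).trans ?_
  nlinarith

end Pool.Agent.H666.LRC
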